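import Pool.Agent.H804R3.Graph2

/-!
Assembly.
-/

noncomputable section

namespace Pool.Agent.H804R3

open Set Filter Topology FC

theorem gcurve_congr {a a' : FC} {c κ : ℝ} (h : a = a') (G : GB a c κ) (G' : GB a' c κ) :
    gcurve a c κ G = gcurve a' c κ G' := by
  subst h
  rfl

theorem Conn.refl {q : ℂ} {θ₁ : ℝ} {a : FC} (h : a ∈ FC.S q θ₁) : Conn q θ₁ a a :=
  JoinedIn.refl (toCurve_mem h)

theorem gdata_L {γ : FC} {ψ β : ℝ} (hβ : β < Real.pi / 2) (W : γ.Within (ψ - β) (ψ + β)) :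
    (gdata γ ψ β hβ W).L = γ.disp.re * Real.cos ψ + γ.disp.im * Real.sin ψ :=
  γ.integral_cos ψ

theorem gdata_turn {γ : FC} {ψ β : ℝ} (hβ : β < Real.pi / 2) (W : γ.Within (ψ - β) (ψ + β)) :
    (gdata γ ψ β hβ W).turn = Real.sin (γ.turn - ψ) - Real.sin (-ψ) := by
  show Real.sin (γ.θ (xinv γ ψ (xco γ ψ γ.L)) - ψ) - Real.sin (-ψ) = _
  rw [xinv_xco hβ W]
  rfl

theorem eq_zero_of_integral {f : ℝ → ℝ} (hf : Continuous f) {L : ℝ} (hL : 0 < L)
    (h0 : ∀ x, 0 ≤ f x) (h : ¬ 0 < ∫ x in (0 : ℝ)..L, f x) : ∀ x ∈ Icc 0 L, f x = 0 := by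
  intro x hx
  by_contra hcon
  apply h
  exact intervalIntegral.integral_pos hL hf.continuousOn (fun x _ => h0 x)
    ⟨x, hx, lt_of_le_of_ne (h0 x) (Ne.symm hcon)⟩

theorem conn_common_axis {q : ℂ} {θ₁ ψ β : ℝ} {γ₀ γ₁ : FC} (h₀ : γ₀ ∈ FC.S q θ₁)
    (h₁ : γ₁ ∈ FC.S q θ₁) (hβ : β < Real.pi / 2) (W₀ : γ₀.Within (ψ - β) (ψ + β))
    (W₁ : γ₁.Within (ψ - β) (ψ + β)) : Conn q θ₁ γ₀ γ₁ := by
  set a := gdata γ₀ ψ β hβ W₀ with ha
  set b := gdata γ₁ ψ β hβ W₁ with hb
  set c := Real.sin (-ψ) with hc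
  set κ := Real.sin β with hκ
  have Ga : GB a c κ := gdata_GB hβ W₀ le_rfl hβ
  have Gb : GB b c κ := gdata_GB hβ W₁ le_rfl hβ
  have ea : gcurve a c κ Ga = γ₀ := gcurve_gdata hβ W₀ Ga
  have eb : gcurve b c κ Gb = γ₁ := gcurve_gdata hβ W₁ Gb
  have hL : a.L = b.L := by
    rw [ha, hb, gdata_L, gdata_L, h₀.2.1, h₁.2.1]
  have ht : a.turn = b.turn := by
    rw [ha, hb, gdata_turn, gdata_turn, h₀.2.2, h₁.2.2]
  have hLpos : 0 < a.L := by
    have h1 := xco_expand hβ W₀ 0 γ₀.L γ₀.L_nonneg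
    rw [xco_zero, sub_zero, sub_zero] at h1
    exact (mul_pos (cos_beta_pos hβ W₀) h₀.1).trans_le h1
  have hY : HH a b hL c 1 1 = HH a b hL c 0 0 := by
    have d0 := gcurve_disp Ga
    have d1 := gcurve_disp Gb
    rw [ea, h₀.2.1] at d0
    rw [eb, h₁.2.1] at d1
    rw [d0] at d1
    have h2 := mul_left_cancel₀ (Complex.exp_ne_zero _) d1
    have h3 := congrArg Complex.im h2
    simp at h3
    unfold HH
    rw [mix_one_one, mix_zero_zero, ← h3.symm, hL]
  have hmem : ∀ α β' : unitInterval, HH a b hL c α β' = HH a b hL c 0 0 →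
      gcurve (mixFC a b hL α β') c κ (mix_GB hL Ga Gb α β') ∈ FC.S q θ₁ := by
    intro α β' h
    refine mem_S_of ?_ ?_ ?_
    · rw [gcurve_L]
      have := ell_expand (mix_GB hL Ga Gb α β') 0 (mixFC a b hL α β').L
        (mixFC a b hL α β').L_nonneg
      rw [ell_zero] at this
      have h5 : (mixFC a b hL α β').L = a.L := rfl
      rw [h5] at this ⊢
      linarith
    · rw [gcurve_disp, ← h₀.2.1, ← ea, gcurve_disp]
      have h5 : (mixFC a b hL α β').L = a.L := rfl
      rw [h5]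
      have h6 : ∫ x in (0 : ℝ)..a.L, hh (c + (mixFC a b hL α β').θ x)
          = ∫ x in (0 : ℝ)..a.L, hh (c + a.θ x) := by
        have := h
        unfold HH at this
        rw [mix_zero_zero] at this
        exact this
      rw [h6]
    · rw [gcurve_turn, mix_turn hL ht, ← h₀.2.2, ← ea, gcurve_turn]
  by_cases hν : 0 < ∫ x in (0 : ℝ)..a.L, max (a.θ x - b.θ x) 0
  · obtain ⟨B, hB, hB1, hB2, hB3⟩ := exists_beta hL Ga Gb hν hY
    have hfam : CF (fun u : unitInterval =>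
        gcurve (mixFC a b hL u (B u)) c κ (mix_GB hL Ga Gb u (B u))) :=
      CF.gcurve (mix_cf hL continuous_id hB) _
    have := Conn.of_family' hfam (fun u => hmem u (B u) (hB1 u))
    have e0 : gcurve (mixFC a b hL 0 (B 0)) c κ (mix_GB hL Ga Gb 0 (B 0)) = γ₀ := by
      rw [← ea]
      apply gcurve_congr
      rw [hB2, mix_zero_zero]
    have e1 : gcurve (mixFC a b hL 1 (B 1)) c κ (mix_GB hL Ga Gb 1 (B 1)) = γ₁ := by
      rw [← eb]
      apply gcurve_congr
      rw [hB3, mix_one_one]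
    rw [e0, e1] at this
    exact this
  · have hac := a.cont
    have hbc := b.cont
    have z1 := eq_zero_of_integral (f := fun x => max (a.θ x - b.θ x) 0) (by fun_prop) hLpos
      (fun _ => le_max_right _ _) hν
    have e1 : HH a b hL c 0 1 = HH a b hL c 0 0 := by
      unfold HH
      apply intervalIntegral.integral_congr
      intro x hx
      rw [uIcc_of_le hLpos.le] at hx
      have : max (a.θ x - b.θ x) 0 = 0 := z1 x hx
      show hh (c + (a.θ x + ((0 : unitInterval) : ℝ) * max (b.θ x - a.θ x) 0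
        - ((1 : unitInterval) : ℝ) * max (a.θ x - b.θ x) 0))
        = hh (c + (a.θ x + ((0 : unitInterval) : ℝ) * max (b.θ x - a.θ x) 0
        - ((0 : unitInterval) : ℝ) * max (a.θ x - b.θ x) 0))
      rw [this]
      simp
    have h2 := HH_mono hL Ga Gb (show (0 : unitInterval) ≤ 1 from zero_le_one) 1
    rw [hY, e1, sub_self] at h2
    have h3 : ¬ 0 < ∫ x in (0 : ℝ)..a.L, max (b.θ x - a.θ x) 0 := by
      intro h4
      simp at h2
      linarith
    have z2 := eq_zero_of_integral (f := fun x => max (b.θ x - a.θ x) 0) (by fun_prop) hLpos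
      (fun _ => le_max_right _ _) h3
    have hab : a = b := by
      have hin : ∀ s ∈ Icc 0 a.L, a.θ s = b.θ s := by
        intro s hs
        have h5 : max (a.θ s - b.θ s) 0 = 0 := z1 s hs
        have h6 : max (b.θ s - a.θ s) 0 = 0 := z2 s hs
        have h7 := le_max_left (a.θ s - b.θ s) 0
        have h8 := le_max_left (b.θ s - a.θ s) 0
        linarith
      apply θ_ext hL
      intro s
      rcases le_total s 0 with h | h
      · rw [a.left s h, b.left s h]
      · rcases le_total s a.L with h' | h'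
        · exact hin s ⟨h, h'⟩
        · rw [a.right s h', b.right s (hL ▸ h'), ← hL]
          exact hin a.L ⟨hLpos.le, le_rfl⟩
    have : γ₀ = γ₁ := by
      rw [← ea, ← eb]
      exact gcurve_congr hab _ _
    rw [← this]
    exact Conn.refl h₀

/-- If some height is at least `4`, every curve is connected to the standard one. -/
theorem conn_std_of_height {q : ℂ} {θ₁ ψs : ℝ} (hθ : 0 ≤ θ₁) (h : 4 ≤ P q θ₁ ψs) {a : FC}
    (ha : a ∈ FC.S q θ₁) : Conn q θ₁ a (stdCurve q θ₁) := by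
  obtain ⟨sA, hA, sB, hB, hmax, hmin, -⟩ := a.exists_extrema
  by_cases hω : Real.pi ≤ a.θ sA - a.θ sB
  · exact conn_std_of_amplitude ha hA hB hω
  · push Not at hω
    obtain ⟨f1, f2, f3, f4⟩ := range_facts ha hmax hmin
    obtain ⟨ψ, h1, h2, h3⟩ := exists_axis ha hθ hA hB hmax hmin hω h
    obtain ⟨b, hb, β₁, hβ₁, Wb, hconn⟩ := exists_condensed_conn hθ (by linarith) (by linarith) h3
    set β := max β₁ (max (a.θ sA - ψ) (ψ - a.θ sB)) with hβd
    have hβ : β < Real.pi / 2 := max_lt hβ₁ (max_lt (by linarith) (by linarith))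
    have b1 : β₁ ≤ β := le_max_left _ _
    have b2 : a.θ sA - ψ ≤ β := (le_max_left _ _).trans (le_max_right _ _)
    have b3 : ψ - a.θ sB ≤ β := (le_max_right _ _).trans (le_max_right _ _)
    have Wa : a.Within (ψ - β) (ψ + β) := fun s =>
      ⟨by have := hmin s; linarith, by have := hmax s; linarith⟩
    have Wb' : b.Within (ψ - β) (ψ + β) := Wb.mono (by linarith) (by linarith)
    exact (conn_common_axis ha hb hβ Wa Wb').trans hconn

theorem isPreconnected_of_conn {q : ℂ} {θ₁ : ℝ}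
    (h : ∀ a ∈ FC.S q θ₁, Conn q θ₁ a (stdCurve q θ₁)) : IsPreconnected (DubinsSpace q θ₁) := by
  have : IsPathConnected (DubinsSpace q θ₁) := by
    refine ⟨(stdCurve q θ₁).toCurve, toCurve_mem (stdCurve_mem q θ₁), ?_⟩
    intro p hp
    obtain ⟨a, ha, rfl⟩ := FC.exists_of_mem hp
    exact (h a ha).symm
  exact this.isConnected.isPreconnected

theorem amplitude_congr {L : ℝ} {θ θ' : ℝ → ℝ} (h : ∀ s ∈ Icc 0 L, θ s = θ' s) :
    amplitude L θ = amplitude L θ' := by
  unfold amplitude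
  rw [Set.image_congr h]

theorem std_amplitude (q : ℂ) (θ₁ : ℝ) :
    Real.pi < amplitude (stdCurve q θ₁).L (stdCurve q θ₁).θ := by
  have hpi := Real.pi_pos
  obtain ⟨sA, hA, sB, hB, hmax, hmin, e⟩ := (stdCurve q θ₁).exists_extrema
  rw [e]
  have h0 := hmin 0
  rw [(stdCurve q θ₁).θ_zero] at h0
  suffices h : ∃ s, (stdCurve q θ₁).θ s = 2 * Real.pi by
    obtain ⟨s, hs⟩ := h
    have := hmax s
    linarith
  set W := q - (arc θ₁).disp with hW
  set X := seg W.re * arc (Real.pi / 2) * seg W.im * arc (Real.pi / 2) * seg (-W.re) *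
    arc (Real.pi / 2) * seg (-W.im) * arc (Real.pi / 2) with hX
  have hst : stdCurve q θ₁ = X * (arc (-(2 * Real.pi)) * arc θ₁) := by
    rw [hX]
    unfold stdCurve loop
    simp only [mul_assoc]
    rfl
  have hXt : X.turn = 2 * Real.pi := by
    rw [hX]; simp only [turn_mul, turn_seg, turn_arc]; ring
  refine ⟨X.L, ?_⟩
  rw [hst, mul_θ, sub_self, θ_zero, add_zero]
  exact hXt

theorem result_nonneg {q : ℂ} {θ₁ : ℝ} (hθ : 0 ≤ θ₁) (h : ¬ IsPreconnected (DubinsSpace q θ₁)) :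
    (condensedLengths q θ₁).Nonempty ∧ BddAbove (condensedLengths q θ₁) ∧
      (diffuseLengths q θ₁).Nonempty ∧
      sSup (condensedLengths q θ₁) < 2 * Real.pi - θ₁ ∧
      2 * Real.pi - θ₁ ≤ sInf (diffuseLengths q θ₁) := by
  have hpi := Real.pi_pos
  -- some curve is condensed
  obtain ⟨a₀, ha₀, hamp⟩ : ∃ a₀ ∈ FC.S q θ₁, amplitude a₀.L a₀.θ < Real.pi := by
    by_contra hcon
    push Not at hcon
    apply h
    apply isPreconnected_of_conn
    intro a ha
    obtain ⟨sA, hA, sB, hB, hmax, hmin, e⟩ := a.exists_extrema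
    have := hcon a ha
    rw [e] at this
    exact conn_std_of_amplitude ha hA hB this
  -- all heights are less than `4`
  have hP : ∀ ψ, P q θ₁ ψ < 4 := by
    intro ψ
    by_contra hcon
    push Not at hcon
    exact h (isPreconnected_of_conn fun a ha => conn_std_of_height hθ hcon ha)
  have hθπ : θ₁ < Real.pi := by
    obtain ⟨sA, hA, sB, hB, hmax, hmin, e⟩ := a₀.exists_extrema
    obtain ⟨f1, f2, f3, f4⟩ := range_facts ha₀ hmax hmin
    rw [e] at hamp
    linarith
  obtain ⟨ε, hε, hPε⟩ : ∃ ε > 0, ∀ ψ ∈ Icc (θ₁ - Real.pi / 2) (Real.pi / 2),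
      P q θ₁ ψ ≤ 4 - ε := by
    obtain ⟨ψm, -, hψm⟩ := isCompact_Icc.exists_isMaxOn
      (show (Icc (θ₁ - Real.pi / 2) (Real.pi / 2)).Nonempty from
        nonempty_Icc.mpr (by linarith)) (P_cont q θ₁).continuousOn
    refine ⟨4 - P q θ₁ ψm, by linarith [hP ψm], fun ψ hψ => ?_⟩
    have : P q θ₁ ψ ≤ P q θ₁ ψm := hψm hψ
    linarith
  have hcond : ∀ L ∈ condensedLengths q θ₁, L ≤ 2 * Real.pi - θ₁ - ε := by
    rintro L ⟨γ, θ, hj, hamp'⟩
    obtain ⟨a, ha, haL, haθ, -⟩ := exists_of_joins hj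
    obtain ⟨sA, hA, sB, hB, hmax, hmin, e⟩ := a.exists_extrema
    rw [← haL]
    refine length_le ha hθ hA hB hmax hmin ?_ hε hPε
    rw [← e, haL, amplitude_congr haθ]
    exact hamp'
  have hdiff : ∀ L ∈ diffuseLengths q θ₁, 2 * Real.pi - θ₁ ≤ L := by
    rintro L ⟨γ, θ, hj, hamp'⟩
    obtain ⟨a, ha, haL, haθ, -⟩ := exists_of_joins hj
    obtain ⟨sA, hA, sB, hB, hmax, hmin, e⟩ := a.exists_extrema
    rw [← haL]
    have h1 := a.length_ge hA hB (by rw [ha.2.2]; exact hθ)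
    rw [ha.2.2, ← e, haL, amplitude_congr haθ] at h1
    linarith
  have hne : (condensedLengths q θ₁).Nonempty := ⟨a₀.L, _, a₀.θ, joins_of_mem ha₀, hamp⟩
  have hne' : (diffuseLengths q θ₁).Nonempty :=
    ⟨(stdCurve q θ₁).L, _, (stdCurve q θ₁).θ, joins_of_mem (stdCurve_mem q θ₁),
      std_amplitude q θ₁⟩
  refine ⟨hne, ⟨_, hcond⟩, hne', ?_, le_csInf hne' hdiff⟩
  have := csSup_le hne hcond
  linarith

/-! ### Reflection -/

theorem Joins.reflect {q : ℂ} {θ₁ L : ℝ} {γ : ℝ → ℂ} {θ : ℝ → ℝ} (h : Joins q θ₁ L γ θ) :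
    Joins (starRingEnd ℂ q) (-θ₁) L (fun s => starRingEnd ℂ (γ s)) (fun s => -θ s) := by
  have key : ∀ x : ℝ, Complex.exp (((-x : ℝ) : ℂ) * Complex.I)
      = starRingEnd ℂ (Complex.exp (x * Complex.I)) := by
    intro x
    rw [← Complex.exp_conj]
    simp
  refine { pos := h.pos, continuousOn_angle := h.continuousOn_angle.neg, angle_zero := ?_,
           hasDeriv := ?_, lipschitz := ?_, start := ?_, finish := ?_, turning := ?_ }
  · simp [h.angle_zero]
  · intro s hs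
    rw [key]
    exact (Complex.conjCLE.hasFDerivAt.comp_hasDerivWithinAt s (h.hasDeriv s hs))
  · intro s hs t ht
    rw [key, key, ← map_sub, Complex.norm_conj]
    exact h.lipschitz s hs t ht
  · simp [h.start]
  · simp [h.finish]
  · simp [h.turning]

theorem amplitude_neg (L : ℝ) (θ : ℝ → ℝ) : amplitude L (fun s => -θ s) = amplitude L θ := by
  unfold amplitude
  have : (fun s => -θ s) '' Icc 0 L = -(θ '' Icc 0 L) := by
    rw [← Set.image_neg_eq_neg, Set.image_image]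
  rw [this, Real.sInf_def (-(θ '' Icc 0 L)), Real.sInf_def (θ '' Icc 0 L), neg_neg]
  ring

/-- reflection on pairs of continuous functions -/
def refl2 (p : C(unitInterval, ℂ) × C(unitInterval, ℂ)) :
    C(unitInterval, ℂ) × C(unitInterval, ℂ) :=
  ((⟨starRingEnd ℂ, Complex.continuous_conj⟩ : C(ℂ, ℂ)).comp p.1,
    (⟨starRingEnd ℂ, Complex.continuous_conj⟩ : C(ℂ, ℂ)).comp p.2)

theorem continuous_refl2 : Continuous refl2 := by
  unfold refl2
  exact ((ContinuousMap.continuous_postcomp _).comp continuous_fst).prodMk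
    ((ContinuousMap.continuous_postcomp _).comp continuous_snd)

theorem refl2_refl2 (p : C(unitInterval, ℂ) × C(unitInterval, ℂ)) : refl2 (refl2 p) = p := by
  apply Prod.ext
  · ext t
    exact Complex.conj_conj _
  · ext t
    exact Complex.conj_conj _

theorem refl2_mem {q : ℂ} {θ₁ : ℝ} {p : C(unitInterval, ℂ) × C(unitInterval, ℂ)}
    (hp : p ∈ DubinsSpace q θ₁) : refl2 p ∈ DubinsSpace (starRingEnd ℂ q) (-θ₁) := by
  obtain ⟨L, γ, θ, hj, h1, h2⟩ := hp
  refine ⟨L, _, _, hj.reflect, fun t => ?_, fun t => ?_⟩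
  · show starRingEnd ℂ (p.1 t) = _
    rw [h1]
  · show starRingEnd ℂ (p.2 t) = _
    rw [h2, map_mul, Complex.conj_ofReal, ← Complex.exp_conj]
    simp

theorem image_refl2 (q : ℂ) (θ₁ : ℝ) :
    refl2 '' DubinsSpace (starRingEnd ℂ q) (-θ₁) = DubinsSpace q θ₁ := by
  ext p
  constructor
  · rintro ⟨p', hp', rfl⟩
    have := refl2_mem hp'
    rwa [Complex.conj_conj, neg_neg] at this
  · intro hp
    exact ⟨refl2 p, refl2_mem hp, refl2_refl2 p⟩

theorem condensed_reflect_subset (q : ℂ) (θ₁ : ℝ) :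
    condensedLengths q θ₁ ⊆ condensedLengths (starRingEnd ℂ q) (-θ₁) := by
  rintro L ⟨γ, θ, hj, h⟩
  exact ⟨_, _, hj.reflect, by rwa [amplitude_neg]⟩

theorem diffuse_reflect_subset (q : ℂ) (θ₁ : ℝ) :
    diffuseLengths q θ₁ ⊆ diffuseLengths (starRingEnd ℂ q) (-θ₁) := by
  rintro L ⟨γ, θ, hj, h⟩
  exact ⟨_, _, hj.reflect, by rwa [amplitude_neg]⟩

theorem condensed_reflect (q : ℂ) (θ₁ : ℝ) :
    condensedLengths (starRingEnd ℂ q) (-θ₁) = condensedLengths q θ₁ := by
  apply Set.Subset.antisymm _ (condensed_reflect_subset q θ₁)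
  have := condensed_reflect_subset (starRingEnd ℂ q) (-θ₁)
  rwa [Complex.conj_conj, neg_neg] at this

theorem diffuse_reflect (q : ℂ) (θ₁ : ℝ) :
    diffuseLengths (starRingEnd ℂ q) (-θ₁) = diffuseLengths q θ₁ := by
  apply Set.Subset.antisymm _ (diffuse_reflect_subset q θ₁)
  have := diffuse_reflect_subset (starRingEnd ℂ q) (-θ₁)
  rwa [Complex.conj_conj, neg_neg] at this

theorem main_result {q : ℂ} {θ₁ : ℝ} (h : ¬ IsPreconnected (DubinsSpace q θ₁)) :
    (condensedLengths q θ₁).Nonempty ∧ BddAbove (condensedLengths q θ₁) ∧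
      (diffuseLengths q θ₁).Nonempty ∧
      sSup (condensedLengths q θ₁) < 2 * Real.pi - |θ₁| ∧
      2 * Real.pi - |θ₁| ≤ sInf (diffuseLengths q θ₁) := by
  rcases le_total 0 θ₁ with hθ | hθ
  · rw [abs_of_nonneg hθ]
    exact result_nonneg hθ h
  · rw [abs_of_nonpos hθ]
    have h' : ¬ IsPreconnected (DubinsSpace (starRingEnd ℂ q) (-θ₁)) := by
      intro hc
      apply h
      rw [← image_refl2]
      exact hc.image _ continuous_refl2.continuousOn
    have := result_nonneg (by linarith : 0 ≤ -θ₁) h'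
    rwa [condensed_reflect, diffuse_reflect] at this

end Pool.Agent.H804R3
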