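import Pool.Agent.H804R3.Norm

/-!
Every curve of amplitude at least `π` is connected to a standard one.
-/

noncomputable section

namespace Pool.Agent.H804R3

open Set FC

theorem mem_S_of {q : ℂ} {θ₁ : ℝ} {a : FC} (h1 : 0 < a.L) (h2 : a.disp = q) (h3 : a.turn = θ₁) :
    a ∈ FC.S q θ₁ := ⟨h1, h2, h3⟩

theorem insert3 {q : ℂ} {θ₁ : ℝ} {a b c d : FC} (h : a * b * c * d ∈ FC.S q θ₁) {X Y Z : ℝ → FC}
    (hX : CF X) (hY : CF Y) (hZ : CF Z) (tX : ∀ u, (X u).turn = 0) (tY : ∀ u, (Y u).turn = 0)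
    (tZ : ∀ u, (Z u).turn = 0)
    (hd : ∀ u ∈ Icc (0 : ℝ) 1, Complex.exp (a.turn * Complex.I) * (X u).disp
      + Complex.exp ((a.turn + b.turn : ℝ) * Complex.I) * (Y u).disp
      + Complex.exp ((a.turn + b.turn + c.turn : ℝ) * Complex.I) * (Z u).disp = 0) :
    Conn q θ₁ (a * X 0 * b * Y 0 * c * Z 0 * d) (a * X 1 * b * Y 1 * c * Z 1 * d) := by
  have hF : CF (fun u => a * X u * b * Y u * c * Z u * d) :=
    ((((((CF.const a).mul hX).mul (CF.const b)).mul hY).mul (CF.const c)).mul hZ).mul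
      (CF.const d)
  refine Conn.of_family hF ?_
  intro u hu
  obtain ⟨h1, h2, h3⟩ := h
  refine mem_S_of ?_ ?_ ?_
  · simp only [mul_L] at h1 ⊢
    have hx := (X u).L_nonneg
    have hy := (Y u).L_nonneg
    have hz := (Z u).L_nonneg
    linarith
  · rw [← h2]
    have := hd u hu
    simp only [disp_mul, turn_mul, tX, tY, tZ, add_zero]
    linear_combination this
  · rw [← h3]
    simp only [turn_mul, tX, tY, tZ, add_zero]

theorem exp_add_half_pi (ψ : ℝ) : Complex.exp ((ψ + Real.pi / 2 : ℝ) * Complex.I)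
    = Complex.exp (ψ * Complex.I) * Complex.I := by
  rw [show (((ψ + Real.pi / 2 : ℝ) : ℂ) * Complex.I)
    = ψ * Complex.I + (Real.pi : ℂ) / 2 * Complex.I by push_cast; ring]
  rw [Complex.exp_add, Complex.exp_pi_div_two_mul_I]

theorem exp_sub_half_pi (ψ : ℝ) : Complex.exp ((ψ - Real.pi / 2 : ℝ) * Complex.I)
    = - (Complex.exp (ψ * Complex.I) * Complex.I) := by
  rw [show (((ψ - Real.pi / 2 : ℝ) : ℂ) * Complex.I)
    = ψ * Complex.I + -(Real.pi : ℂ) / 2 * Complex.I by push_cast; ring]
  rw [Complex.exp_add, show -(Real.pi : ℂ) / 2 * Complex.I = -((Real.pi : ℂ) / 2 * Complex.I) by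
    ring, Complex.exp_neg, Complex.exp_pi_div_two_mul_I, Complex.inv_I]
  ring

theorem exp_ofReal_I (v : ℝ) : Complex.exp (v * Complex.I)
    = (Real.cos v : ℂ) + (Real.sin v : ℂ) * Complex.I := by
  rw [Complex.exp_mul_I, ← Complex.ofReal_cos, ← Complex.ofReal_sin]

theorem disp_arc_arc {v : ℝ} (hv : 0 ≤ v) : (arc v * arc (-v)).disp
    = 2 * Complex.I * (1 - Complex.exp (v * Complex.I)) := by
  rw [disp_mul, disp_arc_pos hv, disp_arc_neg (by linarith), turn_arc]
  have h : Complex.exp (v * Complex.I) * Complex.exp (((-v : ℝ) : ℂ) * Complex.I) = 1 := by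
    rw [← Complex.exp_add]
    simp
  linear_combination Complex.I * h

theorem max_neg_sub (x : ℝ) : max (-x) 0 - max x 0 = -x := by
  rcases le_total 0 x with h | h
  · rw [max_eq_right (by linarith), max_eq_left h]; ring
  · rw [max_eq_left (by linarith), max_eq_right h]; ring

theorem loop_key (ψ v : ℝ) :
    Complex.exp ((ψ + Real.pi / 2 : ℝ) * Complex.I) *
      (2 * Complex.I * (1 - Complex.exp (v * Complex.I)) + (max (-(2 * Real.sin v)) 0 : ℝ))
    + Complex.exp (ψ * Complex.I) * (max (2 * (1 - Real.cos v)) 0 : ℝ)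
    + Complex.exp ((ψ - Real.pi / 2 : ℝ) * Complex.I) * (max (2 * Real.sin v) 0 : ℝ) = 0 := by
  have h1 := max_neg_sub (2 * Real.sin v)
  have h2 : ((max (-(2 * Real.sin v)) 0 : ℝ) : ℂ) - ((max (2 * Real.sin v) 0 : ℝ) : ℂ)
      = -(2 * Real.sin v) := by
    rw [← Complex.ofReal_sub, h1]; push_cast; ring
  have h3 : max (2 * (1 - Real.cos v)) 0 = 2 * (1 - Real.cos v) :=
    max_eq_left (by linarith [Real.cos_le_one v])
  rw [exp_add_half_pi, exp_sub_half_pi, exp_ofReal_I v, h3]
  push_cast at h2 ⊢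
  have hI : Complex.I ^ 2 = -1 := Complex.I_sq
  linear_combination (Complex.exp (ψ * Complex.I) * Complex.I) * h2
    + (2 * Complex.exp (ψ * Complex.I) * (1 - Complex.cos v - Complex.sin v * Complex.I)) * hI

theorem cf_loopA : CF (fun u : ℝ => arc (2 * Real.pi * u) * arc (-(2 * Real.pi * u)) *
    seg (-(2 * Real.sin (2 * Real.pi * u)))) := by
  refine ((CF.arc ?_).mul (CF.arc ?_)).mul (CF.seg ?_) <;> fun_prop

theorem cf_segB : CF (fun u : ℝ => seg (2 * (1 - Real.cos (2 * Real.pi * u)))) := by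
  refine CF.seg ?_
  fun_prop

theorem cf_segC : CF (fun u : ℝ => seg (2 * Real.sin (2 * Real.pi * u))) := by
  refine CF.seg ?_
  fun_prop

theorem insert_loop₁ {q : ℂ} {θ₁ ψ : ℝ} {a b c d : FC} (h : a * b * c * d ∈ FC.S q θ₁)
    (ha : a.turn = ψ + Real.pi / 2) (hb : b.turn = -(Real.pi / 2))
    (hc : c.turn = -(Real.pi / 2)) :
    Conn q θ₁ (a * b * c * d) (a * (arc (2 * Real.pi) * arc (-(2 * Real.pi))) * (b * c * d)) := by
  have := insert3 h cf_loopA cf_segB cf_segC (by intro u; simp) (by intro u; simp)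
    (by intro u; simp) (by
      intro u hu
      have hv : 0 ≤ 2 * Real.pi * u := by have := Real.pi_pos; have := hu.1; positivity
      have h1 := loop_key ψ (2 * Real.pi * u)
      rw [disp_mul, disp_arc_arc hv, ha, hb, hc]
      simp only [turn_mul, turn_arc, disp_seg]
      rw [show ψ + Real.pi / 2 + -(Real.pi / 2) = ψ by ring,
        show ψ + -(Real.pi / 2) = ψ - Real.pi / 2 by ring]
      rw [show (2 * Real.pi * u + -(2 * Real.pi * u)) = 0 by ring]
      rw [Complex.ofReal_zero, zero_mul, Complex.exp_zero, one_mul]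
      exact h1)
  simpa [arc_zero, seg_zero, mul_assoc] using this

theorem insert_loop₂ {q : ℂ} {θ₁ ψ : ℝ} {a b c d : FC} (h : a * b * c * d ∈ FC.S q θ₁)
    (ha : a.turn = ψ - Real.pi / 2) (hb : b.turn = Real.pi / 2)
    (hc : c.turn = Real.pi / 2) :
    Conn q θ₁ (a * b * c * d) ((a * b * c) * (arc (2 * Real.pi) * arc (-(2 * Real.pi))) * d) := by
  have := insert3 h cf_segC cf_segB cf_loopA (by intro u; simp) (by intro u; simp)
    (by intro u; simp) (by
      intro u hu
      have hv : 0 ≤ 2 * Real.pi * u := by have := Real.pi_pos; have := hu.1; positivity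
      have h1 := loop_key ψ (2 * Real.pi * u)
      rw [disp_mul, disp_arc_arc hv, ha, hb, hc]
      simp only [turn_mul, turn_arc, disp_seg]
      rw [show ψ - Real.pi / 2 + Real.pi / 2 = ψ by ring]
      rw [show (2 * Real.pi * u + -(2 * Real.pi * u)) = 0 by ring]
      rw [Complex.ofReal_zero, zero_mul, Complex.exp_zero, one_mul]
      linear_combination h1)
  simpa [arc_zero, seg_zero, mul_assoc] using this

/-- a full loop with correcting segments: turning `0`, displacement `W` -/
def loop (W : ℂ) : FC :=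
  seg W.re * arc (Real.pi / 2) * seg W.im * arc (Real.pi / 2) * seg (-W.re) *
    arc (Real.pi / 2) * seg (-W.im) * arc (Real.pi / 2) * arc (-(2 * Real.pi))

theorem turn_loop (W : ℂ) : (loop W).turn = 0 := by
  simp only [loop, turn_mul, turn_seg, turn_arc]
  ring

theorem loop_zero : loop 0 = arc (2 * Real.pi) * arc (-(2 * Real.pi)) := by
  have hp := Real.pi_pos
  unfold loop
  rw [Complex.zero_re, Complex.zero_im, neg_zero, seg_zero, one_mul, mul_one, mul_one, mul_one,
    arc_mul_arc (by positivity) (by positivity), arc_mul_arc (by positivity) (by positivity),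
    arc_mul_arc (by positivity) (by positivity)]
  congr 2
  ring

theorem loop_L (W : ℂ) : 0 < (loop W).L := by
  have hp := Real.pi_pos
  simp only [loop, mul_L, seg_L, arc_L]
  have h1 : |-(2 * Real.pi)| = 2 * Real.pi := by rw [abs_neg, abs_of_pos (by positivity)]
  rw [h1]
  positivity

theorem disp_loop (W : ℂ) : (loop W).disp = W := by
  have hp := Real.pi_pos
  unfold loop
  simp only [disp_mul, turn_mul, turn_seg, turn_arc, disp_seg, zero_add, add_zero]
  rw [disp_arc_pos (by positivity : 0 ≤ Real.pi / 2),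
    disp_arc_neg (by linarith : -(2 * Real.pi) ≤ 0)]
  have e1 : Complex.exp (((Real.pi / 2 : ℝ) : ℂ) * Complex.I) = Complex.I := by
    push_cast
    exact Complex.exp_pi_div_two_mul_I
  have e2 : Complex.exp (((Real.pi / 2 + Real.pi / 2 : ℝ) : ℂ) * Complex.I) = -1 := by
    rw [show Real.pi / 2 + Real.pi / 2 = Real.pi by ring]
    exact Complex.exp_pi_mul_I
  have e3 : Complex.exp (((Real.pi / 2 + Real.pi / 2 + Real.pi / 2 : ℝ) : ℂ) * Complex.I)
      = -Complex.I := by
    have := exp_add_half_pi (Real.pi / 2 + Real.pi / 2)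
    rw [this, e2]; ring
  have e4 : Complex.exp (((Real.pi / 2 + Real.pi / 2 + Real.pi / 2 + Real.pi / 2 : ℝ) : ℂ)
      * Complex.I) = 1 := by
    have := exp_add_half_pi (Real.pi / 2 + Real.pi / 2 + Real.pi / 2)
    rw [this, e3]
    linear_combination -Complex.I_sq
  have e5 : Complex.exp (((-(2 * Real.pi) : ℝ) : ℂ) * Complex.I) = 1 := by
    have h := Complex.exp_two_pi_mul_I
    rw [show (((-(2 * Real.pi) : ℝ) : ℂ) * Complex.I) = -(2 * Real.pi * Complex.I) by
      push_cast; ring, Complex.exp_neg, h, inv_one]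
  rw [e1, e2, e3, e4, e5]
  have h0 : Complex.exp (((0 : ℝ) : ℂ) * Complex.I) = 1 := by simp
  rw [h0]
  have hr := max_neg_sub W.re
  have hi := max_neg_sub W.im
  have hr' : ((max (-W.re) 0 : ℝ) : ℂ) - ((max W.re 0 : ℝ) : ℂ) = -(W.re : ℂ) := by
    rw [← Complex.ofReal_sub, hr]; push_cast; ring
  have hi' : ((max (-W.im) 0 : ℝ) : ℂ) - ((max W.im 0 : ℝ) : ℂ) = -(W.im : ℂ) := by
    rw [← Complex.ofReal_sub, hi]; push_cast; ring
  have hW : (W.re : ℂ) + W.im * Complex.I = W := Complex.re_add_im W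
  have hI : Complex.I ^ 2 = -1 := Complex.I_sq
  linear_combination (-1 : ℂ) * hr' - Complex.I * hi' + hW

theorem cf_loop {T : Type*} [TopologicalSpace T] {W : T → ℂ} (hW : Continuous W) :
    CF (fun t => loop (W t)) := by
  have hre : Continuous fun t => (W t).re := Complex.continuous_re.comp hW
  have him : Continuous fun t => (W t).im := Complex.continuous_im.comp hW
  unfold loop
  exact ((((((((CF.seg hre).mul (CF.const _)).mul (CF.seg him)).mul (CF.const _)).mul
    (CF.seg hre.neg)).mul (CF.const _)).mul (CF.seg him.neg)).mul (CF.const _)).mul (CF.const _)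

/-- the standard curve -/
def stdCurve (q : ℂ) (θ₁ : ℝ) : FC := loop (q - (arc θ₁).disp) * arc θ₁

theorem stdCurve_mem (q : ℂ) (θ₁ : ℝ) : stdCurve q θ₁ ∈ FC.S q θ₁ := by
  refine mem_S_of ?_ ?_ ?_
  · unfold stdCurve
    rw [mul_L]
    exact add_pos_of_pos_of_nonneg (loop_L _) (arc θ₁).L_nonneg
  · unfold stdCurve
    rw [disp_mul, turn_loop, disp_loop]
    simp
  · unfold stdCurve
    rw [turn_mul, turn_loop, turn_arc, zero_add]

theorem loop_to_std {q : ℂ} {θ₁ : ℝ} {a b : FC}
    (h : a * (arc (2 * Real.pi) * arc (-(2 * Real.pi))) * b ∈ FC.S q θ₁) :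
    Conn q θ₁ (a * (arc (2 * Real.pi) * arc (-(2 * Real.pi))) * b) (stdCurve q θ₁) := by
  rw [← loop_zero] at h ⊢
  obtain ⟨h1, h2, h3⟩ := h
  rw [turn_mul, turn_mul, turn_loop, add_zero] at h3
  rw [disp_mul, disp_mul, disp_loop, turn_mul, turn_loop, mul_zero, add_zero, add_zero] at h2
  let A : ℝ → FC := fun u => a.take (u * a.L)
  let B : ℝ → FC := fun u => b.take (u * b.L)
  have hA : CF A := CF.take a (by fun_prop)
  have hB : CF B := CF.take b (by fun_prop)
  let E : ℝ → FC := fun u => arc (θ₁ - (A u).turn - (B u).turn)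
  have hE : CF E := CF.arc ((continuous_const.sub hA.turn).sub hB.turn)
  let W : ℝ → ℂ := fun u => Complex.exp (-((A u).turn * Complex.I)) * (q - (A u).disp)
    - (B u).disp - Complex.exp ((B u).turn * Complex.I) * (E u).disp
  have hW : Continuous W := by
    have h1 := hA.turn
    have h2 := hA.disp
    have h3 := hB.turn
    have h4 := hB.disp
    have h5 := hE.disp
    fun_prop
  have hF : CF (fun u => A u * loop (W u) * B u * E u) :=
    (((hA.mul (cf_loop hW)).mul hB).mul hE)
  have hmem : ∀ u ∈ Icc (0 : ℝ) 1, A u * loop (W u) * B u * E u ∈ FC.S q θ₁ := by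
    intro u _
    refine mem_S_of ?_ ?_ ?_
    · simp only [mul_L]
      have := (A u).L_nonneg
      have := (B u).L_nonneg
      have := (E u).L_nonneg
      have := loop_L (W u)
      linarith
    · simp only [disp_mul, turn_mul, turn_loop, disp_loop, add_zero]
      have e1 : Complex.exp ((((A u).turn + (B u).turn : ℝ) : ℂ) * Complex.I)
          = Complex.exp ((A u).turn * Complex.I) * Complex.exp ((B u).turn * Complex.I) := by
        rw [← Complex.exp_add]; congr 1; push_cast; ring
      have e2 : Complex.exp ((A u).turn * Complex.I) * Complex.exp (-((A u).turn * Complex.I))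
          = 1 := by
        rw [← Complex.exp_add]; simp
      rw [e1]
      simp only [W]
      linear_combination (q - (A u).disp) * e2
    · simp only [turn_mul, turn_loop, E, turn_arc]
      ring
  have hconn := (Conn.of_family hF hmem).symm
  have hA1 : A 1 = a := by simp only [A, one_mul]; exact a.take_self
  have hB1 : B 1 = b := by simp only [B, one_mul]; exact b.take_self
  have hA0 : A 0 = 1 := by simp only [A, zero_mul]; exact a.take_zero
  have hB0 : B 0 = 1 := by simp only [B, zero_mul]; exact b.take_zero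
  have hE1 : E 1 = 1 := by
    simp only [E, hA1, hB1]
    rw [← h3, show a.turn + b.turn - a.turn - b.turn = 0 by ring, arc_zero]
  have hW1 : W 1 = 0 := by
    simp only [W, hA1, hB1, hE1, disp_one, mul_zero, sub_zero]
    rw [← h2]
    have e2 : Complex.exp (-(a.turn * Complex.I)) * Complex.exp (a.turn * Complex.I)
        = 1 := by
      rw [← Complex.exp_add]; simp
    linear_combination b.disp * e2
  have hE0 : E 0 = arc θ₁ := by
    simp only [E, hA0, hB0, turn_one, sub_zero]
  have hW0 : W 0 = q - (arc θ₁).disp := by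
    simp only [W, hA0, hB0, hE0, disp_one, turn_one]
    simp
  simp only [hA1, hB1, hE1, hW1, hA0, hB0, hE0, hW0, mul_one, one_mul] at hconn
  exact hconn

theorem mem_insert_loop {q : ℂ} {θ₁ : ℝ} {x y : FC} (h : x * y ∈ FC.S q θ₁) :
    x * (arc (2 * Real.pi) * arc (-(2 * Real.pi))) * y ∈ FC.S q θ₁ := by
  rw [← loop_zero]
  obtain ⟨h1, h2, h3⟩ := h
  refine mem_S_of ?_ ?_ ?_
  · rw [mul_L, mul_L]
    have := x.L_nonneg
    have := y.L_nonneg
    have := loop_L 0
    linarith
  · rw [← h2]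
    simp only [disp_mul, turn_mul, turn_loop, disp_loop, mul_zero, add_zero]
  · rw [← h3]
    simp only [turn_mul, turn_loop, add_zero]

/-- every curve of amplitude at least `π` is connected to the standard one -/
theorem conn_std_of_amplitude {q : ℂ} {θ₁ : ℝ} {a : FC} (ha : a ∈ FC.S q θ₁) {s t : ℝ}
    (hs : s ∈ Icc 0 a.L) (ht : t ∈ Icc 0 a.L) (h : Real.pi ≤ a.θ s - a.θ t) :
    Conn q θ₁ a (stdCurve q θ₁) := by
  have hpi := Real.pi_pos
  have hc := a.cont
  -- `ψ` with `ψ + π/2 = θ s`
  set ψ := a.θ s - Real.pi / 2 with hψ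
  rcases le_total s t with hst | hst
  · -- `θ` goes from `ψ + π/2` down to at most `ψ - π/2`
    obtain ⟨m₂, hm₂, e₂⟩ := intermediate_value_Icc' hst hc.continuousOn
      (show ψ ∈ Icc (a.θ t) (a.θ s) by constructor <;> linarith)
    obtain ⟨m₃, hm₃, e₃⟩ := intermediate_value_Icc' hm₂.2 hc.continuousOn
      (show ψ - Real.pi / 2 ∈ Icc (a.θ t) (a.θ m₂) by constructor <;> linarith)
    obtain ⟨b, c, d, e, habc, t1, t2, t3⟩ := a.exists_decomp hs.1 hm₂.1 hm₃.1
      (hm₃.2.trans ht.2)
    rw [habc] at ha ⊢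
    have h1 := insert_loop₁ (ψ := ψ) ha (by rw [t1]; linarith) (by rw [t2]; linarith)
      (by rw [t3]; linarith)
    refine h1.trans (loop_to_std (mem_insert_loop ?_))
    simpa only [mul_assoc] using ha
  · -- `θ` goes from at most `ψ - π/2` up to `ψ + π/2`
    obtain ⟨m₁, hm₁, e₁⟩ := intermediate_value_Icc hst hc.continuousOn
      (show ψ - Real.pi / 2 ∈ Icc (a.θ t) (a.θ s) by constructor <;> linarith)
    obtain ⟨m₂, hm₂, e₂⟩ := intermediate_value_Icc hm₁.2 hc.continuousOn
      (show ψ ∈ Icc (a.θ m₁) (a.θ s) by constructor <;> linarith)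
    obtain ⟨b, c, d, e, habc, t1, t2, t3⟩ := a.exists_decomp (ht.1.trans hm₁.1) hm₂.1 hm₂.2 hs.2
    rw [habc] at ha ⊢
    have h1 := insert_loop₂ (ψ := ψ) ha (by rw [t1]; linarith) (by rw [t2]; linarith)
      (by rw [t3]; linarith)
    exact h1.trans (loop_to_std (mem_insert_loop ha))

end Pool.Agent.H804R3
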