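import Pool.Agent.H804R3.Ineq2
import Pool.Agent.H804R3.Loops

/-!
A family of curves joining a condensed curve to a critical one.
-/

noncomputable section

namespace Pool.Agent.H804R3

open Set Filter Topology FC

namespace FC

/-- all angles lie in `[lo, hi]` -/
def Within (a : FC) (lo hi : ℝ) : Prop := ∀ s, lo ≤ a.θ s ∧ a.θ s ≤ hi

theorem Within.mono {a : FC} {lo hi lo' hi' : ℝ} (h : a.Within lo hi) (h1 : lo' ≤ lo)
    (h2 : hi ≤ hi') : a.Within lo' hi' := fun s => ⟨h1.trans (h s).1, (h s).2.trans h2⟩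

theorem Within.mul {a b : FC} {lo hi : ℝ} (ha : a.Within lo hi)
    (hb : b.Within (lo - a.turn) (hi - a.turn)) : (a * b).Within lo hi := by
  intro s
  rw [mul_θ]
  rcases le_total s a.L with h | h
  · rw [b.left (s - a.L) (by linarith), add_zero]
    exact ha s
  · rw [a.right s h]
    have := hb (s - a.L)
    unfold FC.turn at this
    constructor <;> linarith [this.1, this.2]

theorem within_arc {α lo hi : ℝ} (h1 : lo ≤ 0) (h2 : 0 ≤ hi) (h3 : lo ≤ α) (h4 : α ≤ hi) :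
    (arc α).Within lo hi := by
  intro s
  rcases le_total 0 α with h | h
  · rw [arc_θ_pos h]
    constructor
    · exact h1.trans (le_max_right _ _)
    · exact max_le ((min_le_right _ _).trans h4) h2
  · rw [arc_θ_neg h]
    constructor
    · have : max (min s (-α)) 0 ≤ -lo := max_le ((min_le_right _ _).trans (by linarith))
        (by linarith)
      linarith
    · have : 0 ≤ max (min s (-α)) 0 := le_max_right _ _
      linarith

theorem within_seg {c lo hi : ℝ} (h1 : lo ≤ 0) (h2 : 0 ≤ hi) : (seg c).Within lo hi := by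
  intro s
  exact ⟨h1, h2⟩

end FC

theorem P_complex (q : ℂ) (θ₁ ψ : ℝ) :
    Complex.exp (ψ * Complex.I) * (P q θ₁ ψ + P' q θ₁ ψ * Complex.I)
      = q + Complex.I - Complex.I * Complex.exp (θ₁ * Complex.I) := by
  rw [exp_ofReal_I ψ, exp_ofReal_I θ₁]
  unfold P P'
  apply Complex.ext
  · simp only [Complex.mul_re, Complex.add_re, Complex.ofReal_re, Complex.ofReal_im, Complex.I_re,
      Complex.I_im, Complex.sub_re, Complex.mul_im, Complex.add_im]
    have := Real.sin_sq_add_cos_sq ψ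
    linear_combination (q.re + Real.sin θ₁) * this
  · simp only [Complex.mul_re, Complex.add_re, Complex.ofReal_re, Complex.ofReal_im, Complex.I_re,
      Complex.I_im, Complex.sub_im, Complex.mul_im, Complex.add_im]
    have := Real.sin_sq_add_cos_sq ψ
    linear_combination (q.im + 1 - Real.cos θ₁) * this

/-- the coefficient of the middle segment -/
def midc (q : ℂ) (θ₁ ψ τ : ℝ) : ℝ :=
  P q θ₁ ψ - 4 * Real.cos τ - |P' q θ₁ ψ| * (Real.sin τ / Real.cos τ)

/-- the family -/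
def crit (q : ℂ) (θ₁ ψ τ : ℝ) : FC :=
  arc (-(Real.pi / 2 - τ - ψ)) * seg (-P' q θ₁ ψ / Real.cos τ) * arc (Real.pi / 2 - τ) *
    seg (midc q θ₁ ψ τ) * arc (Real.pi / 2 - τ) * seg (P' q θ₁ ψ / Real.cos τ) *
    arc (-(ψ + Real.pi / 2 - τ - θ₁))

theorem turn_crit (q : ℂ) (θ₁ ψ τ : ℝ) : (crit q θ₁ ψ τ).turn = θ₁ := by
  simp only [crit, turn_mul, turn_seg, turn_arc]
  ring

theorem disp_crit {q : ℂ} {θ₁ ψ τ : ℝ} (h1 : τ ≤ Real.pi / 2 - ψ) (h2 : τ ≤ ψ + Real.pi / 2 - θ₁)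
    (h3 : τ ≤ Real.pi / 2) (hc : 0 < Real.cos τ) (hm : 0 ≤ midc q θ₁ ψ τ) :
    (crit q θ₁ ψ τ).disp = q := by
  unfold crit
  simp only [disp_mul, turn_mul, turn_seg, turn_arc, disp_seg, add_zero]
  rw [disp_arc_neg (by linarith : -(Real.pi / 2 - τ - ψ) ≤ 0),
    disp_arc_pos (by linarith : 0 ≤ Real.pi / 2 - τ),
    disp_arc_neg (by linarith : -(ψ + Real.pi / 2 - τ - θ₁) ≤ 0), max_eq_left hm]
  set e := Complex.exp (ψ * Complex.I) with he
  set z := Complex.exp (θ₁ * Complex.I) with hz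
  have hE : Complex.exp (((Real.pi / 2 - τ : ℝ) : ℂ) * Complex.I)
      = (Real.sin τ : ℂ) + Real.cos τ * Complex.I := by
    rw [exp_ofReal_I, Real.cos_pi_div_two_sub, Real.sin_pi_div_two_sub]
  have hE' : Complex.exp (((-(Real.pi / 2 - τ) : ℝ) : ℂ) * Complex.I)
      = (Real.sin τ : ℂ) - Real.cos τ * Complex.I := by
    rw [exp_ofReal_I, Real.cos_neg, Real.sin_neg, Real.cos_pi_div_two_sub,
      Real.sin_pi_div_two_sub]
    push_cast; ring
  have e1 : Complex.exp (((-(Real.pi / 2 - τ - ψ) : ℝ) : ℂ) * Complex.I)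
      = e * ((Real.sin τ : ℂ) - Real.cos τ * Complex.I) := by
    rw [← hE', he, ← Complex.exp_add]
    congr 1; push_cast; ring
  have e2 : Complex.exp (((-(Real.pi / 2 - τ - ψ) + (Real.pi / 2 - τ) : ℝ) : ℂ) * Complex.I)
      = e := by
    rw [he]; congr 1; push_cast; ring
  have e3 : Complex.exp (((-(Real.pi / 2 - τ - ψ) + (Real.pi / 2 - τ) + (Real.pi / 2 - τ) : ℝ)
      : ℂ) * Complex.I) = e * ((Real.sin τ : ℂ) + Real.cos τ * Complex.I) := by
    rw [← hE, he, ← Complex.exp_add]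
    congr 1; push_cast; ring
  have e4 : e * ((Real.sin τ : ℂ) + Real.cos τ * Complex.I) *
      Complex.exp (((-(ψ + Real.pi / 2 - τ - θ₁) : ℝ) : ℂ) * Complex.I) = z := by
    rw [← hE, he, hz, ← Complex.exp_add, ← Complex.exp_add]
    congr 1; push_cast; ring
  rw [e1, e2, e3, hE]
  -- real coefficients
  have hc' : Real.cos τ ≠ 0 := hc.ne'
  set c := Real.cos τ with hcd
  set s := Real.sin τ with hsd
  set p := P q θ₁ ψ with hp
  set p' := P' q θ₁ ψ with hp'
  have m1 : max (p' / c) 0 + max (-p' / c) 0 = |p'| / c := by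
    rcases le_total 0 p' with h | h
    · rw [max_eq_left (div_nonneg h hc.le), max_eq_right (div_nonpos_of_nonpos_of_nonneg
        (by linarith) hc.le), abs_of_nonneg h, add_zero]
    · rw [max_eq_right (div_nonpos_of_nonpos_of_nonneg h hc.le), max_eq_left
        (div_nonneg (by linarith) hc.le), abs_of_nonpos h, zero_add]
  have m2 : (max (p' / c) 0 - max (-p' / c) 0) * c = p' := by
    rcases le_total 0 p' with h | h
    · rw [max_eq_left (div_nonneg h hc.le), max_eq_right (div_nonpos_of_nonpos_of_nonneg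
        (by linarith) hc.le), sub_zero]
      field_simp
    · rw [max_eq_right (div_nonpos_of_nonpos_of_nonneg h hc.le), max_eq_left
        (div_nonneg (by linarith) hc.le), zero_sub]
      field_simp
  have m3 : midc q θ₁ ψ τ = p - 4 * c - (max (p' / c) 0 + max (-p' / c) 0) * s := by
    rw [m1]
    show p - 4 * c - |p'| * (s / c) = _
    ring
  have m1' : ((midc q θ₁ ψ τ : ℝ) : ℂ) = p - 4 * c
      - ((max (p' / c) 0 : ℝ) + (max (-p' / c) 0 : ℝ)) * s := by
    rw [m3]; push_cast; ring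
  have m2' : (((max (p' / c) 0 : ℝ) : ℂ) - (max (-p' / c) 0 : ℝ)) * c = p' := by
    rw [← Complex.ofReal_sub, ← Complex.ofReal_mul, m2]
  have hP := P_complex q θ₁ ψ
  rw [← he, ← hz, ← hp, ← hp'] at hP
  have hI : Complex.I ^ 2 = -1 := Complex.I_sq
  rw [m1']
  have hsc : (s : ℂ) ^ 2 + (c : ℂ) ^ 2 = 1 := by
    have := Real.sin_sq_add_cos_sq τ
    rw [← hsd, ← hcd] at this
    exact_mod_cast this
  linear_combination hP + e * Complex.I * m2' + Complex.I * e4 - 4 * e * c * hI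
    - Complex.I * e * hsc + Complex.I * e * c ^ 2 * hI

theorem within_crit {q : ℂ} {θ₁ ψ τ : ℝ} (hθ : 0 ≤ θ₁) (h1 : τ ≤ Real.pi / 2 - ψ)
    (h2 : τ ≤ ψ + Real.pi / 2 - θ₁) :
    (crit q θ₁ ψ τ).Within (ψ - (Real.pi / 2 - τ)) (ψ + (Real.pi / 2 - τ)) := by
  unfold crit
  refine Within.mul (Within.mul (Within.mul (Within.mul (Within.mul (Within.mul ?_ ?_) ?_) ?_) ?_)
    ?_) ?_ <;> try simp only [turn_mul, turn_seg, turn_arc]
  · apply within_arc <;> linarith
  · apply within_seg <;> linarith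
  · apply within_arc <;> linarith
  · apply within_seg <;> linarith
  · apply within_arc <;> linarith
  · apply within_seg <;> linarith
  · apply within_arc <;> linarith

theorem crit_mem {q : ℂ} {θ₁ ψ τ : ℝ} (h1 : τ ≤ Real.pi / 2 - ψ) (h2 : τ ≤ ψ + Real.pi / 2 - θ₁)
    (h3 : τ < Real.pi / 2) (hc : 0 < Real.cos τ) (hm : 0 ≤ midc q θ₁ ψ τ) :
    crit q θ₁ ψ τ ∈ FC.S q θ₁ := by
  refine mem_S_of ?_ (disp_crit h1 h2 h3.le hc hm) (turn_crit q θ₁ ψ τ)
  simp only [crit, mul_L, seg_L, arc_L]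
  have : 0 < |Real.pi / 2 - τ| := abs_pos.mpr (by linarith)
  positivity

theorem midc_nonneg {q : ℂ} {θ₁ ψ : ℝ}
    (hP : 4 < P q θ₁ ψ ∨ (P q θ₁ ψ = 4 ∧ P' q θ₁ ψ = 0)) :
    ∃ δ > 0, ∀ τ, 0 ≤ τ → τ ≤ δ → 0 ≤ midc q θ₁ ψ τ := by
  rcases hP with hP | ⟨hP, hP'⟩
  · have hcont : ContinuousAt (fun τ => midc q θ₁ ψ τ) 0 := by
      unfold midc
      have h0 : Real.cos 0 ≠ 0 := by simp
      refine ((continuousAt_const.sub (by fun_prop)).sub (continuousAt_const.mul ?_))
      exact (Real.continuous_sin.continuousAt).div Real.continuous_cos.continuousAt h0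
    have h1 : 0 < midc q θ₁ ψ 0 := by
      unfold midc; simp; linarith
    have h2 := hcont.eventually (lt_mem_nhds h1)
    rw [Metric.eventually_nhds_iff] at h2
    obtain ⟨ε, hε, h3⟩ := h2
    refine ⟨ε / 2, by positivity, fun τ h4 h5 => (h3 ?_).le⟩
    rw [Real.dist_eq, sub_zero, abs_of_nonneg h4]
    linarith
  · refine ⟨1, one_pos, fun τ _ _ => ?_⟩
    unfold midc
    rw [hP, hP', abs_zero, zero_mul]
    linarith [Real.cos_le_one τ]

/-- From an axis `ψ` of height at least `4` we get a condensed curve with this axis connected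
to the standard curve. -/
theorem exists_condensed_conn {q : ℂ} {θ₁ ψ : ℝ} (hθ : 0 ≤ θ₁) (h1 : θ₁ - Real.pi / 2 < ψ)
    (h2 : ψ < Real.pi / 2) (hP : 4 < P q θ₁ ψ ∨ (P q θ₁ ψ = 4 ∧ P' q θ₁ ψ = 0)) :
    ∃ b ∈ FC.S q θ₁, ∃ β < Real.pi / 2, b.Within (ψ - β) (ψ + β) ∧
      Conn q θ₁ b (stdCurve q θ₁) := by
  have hpi := Real.pi_pos
  obtain ⟨δ, hδ, hmid⟩ := midc_nonneg hP
  set τ₀ := min (min δ (Real.pi / 4)) (min (Real.pi / 2 - ψ) (ψ + Real.pi / 2 - θ₁)) with hτ₀
  have t0 : 0 < τ₀ := by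
    rw [hτ₀]
    refine lt_min (lt_min hδ (by linarith)) (lt_min (by linarith) (by linarith))
  have t1 : τ₀ ≤ δ := (min_le_left _ _).trans (min_le_left _ _)
  have t2 : τ₀ ≤ Real.pi / 4 := (min_le_left _ _).trans (min_le_right _ _)
  have t3 : τ₀ ≤ Real.pi / 2 - ψ := (min_le_right _ _).trans (min_le_left _ _)
  have t4 : τ₀ ≤ ψ + Real.pi / 2 - θ₁ := (min_le_right _ _).trans (min_le_right _ _)
  have hmem : ∀ τ, 0 ≤ τ → τ ≤ τ₀ → crit q θ₁ ψ τ ∈ FC.S q θ₁ := by
    intro τ h3 h4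
    exact crit_mem (h4.trans t3) (h4.trans t4) (by linarith)
      (Real.cos_pos_of_mem_Ioo ⟨by linarith, by linarith⟩) (hmid τ h3 (h4.trans t1))
  have hfam : CF (fun u : unitInterval => crit q θ₁ ψ (τ₀ * u)) := by
    have hu : Continuous fun u : unitInterval => τ₀ * (u : ℝ) := by fun_prop
    have hcos : Continuous fun u : unitInterval => Real.cos (τ₀ * u) := by fun_prop
    have hsin : Continuous fun u : unitInterval => Real.sin (τ₀ * u) := by fun_prop
    have hne : ∀ u : unitInterval, Real.cos (τ₀ * u) ≠ 0 := by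
      intro u
      have h5 : τ₀ * (u : ℝ) ≤ τ₀ := mul_le_of_le_one_right t0.le u.2.2
      have h6 : 0 ≤ τ₀ * (u : ℝ) := mul_nonneg t0.le u.2.1
      exact (Real.cos_pos_of_mem_Ioo ⟨by linarith, by linarith⟩).ne'
    unfold crit midc
    refine ((((((CF.arc ?_).mul (CF.seg ?_)).mul (CF.arc ?_)).mul (CF.seg ?_)).mul
      (CF.arc ?_)).mul (CF.seg ?_)).mul (CF.arc ?_)
    · fun_prop
    · exact continuous_const.div hcos hne
    · fun_prop
    · exact (continuous_const.sub (continuous_const.mul hcos)).sub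
        (continuous_const.mul (hsin.div hcos hne))
    · fun_prop
    · exact continuous_const.div hcos hne
    · fun_prop
  have hconn := Conn.of_family' hfam (fun u => hmem _ (mul_nonneg t0.le u.2.1)
    (mul_le_of_le_one_right t0.le u.2.2))
  simp only [Set.Icc.coe_zero, mul_zero, Set.Icc.coe_one, mul_one] at hconn
  refine ⟨crit q θ₁ ψ τ₀, hmem τ₀ t0.le le_rfl, Real.pi / 2 - τ₀, by linarith,
    within_crit hθ t3 t4, hconn.symm.trans ?_⟩
  have h0 := hmem 0 le_rfl t0.le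
  -- the critical curve has amplitude `π`
  set X := arc (-(Real.pi / 2 - 0 - ψ)) * seg (-P' q θ₁ ψ / Real.cos 0) with hX
  set Y := arc (Real.pi / 2 - 0) * seg (midc q θ₁ ψ 0) * arc (Real.pi / 2 - 0) with hY
  set Z := seg (P' q θ₁ ψ / Real.cos 0) * arc (-(ψ + Real.pi / 2 - 0 - θ₁)) with hZ
  have hXYZ : crit q θ₁ ψ 0 = X * Y * Z := by
    rw [hX, hY, hZ]
    unfold crit
    simp only [mul_assoc]
  have hXt : X.turn = ψ - Real.pi / 2 := by
    rw [hX]; simp only [turn_mul, turn_seg, turn_arc]; ring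
  have hYt : Y.turn = Real.pi := by
    rw [hY]; simp only [turn_mul, turn_seg, turn_arc]; ring
  have hXYL : (X * Y).L = X.L + Y.L := rfl
  have v1 : (crit q θ₁ ψ 0).θ X.L = ψ - Real.pi / 2 := by
    rw [hXYZ, mul_θ, mul_θ, Y.left (X.L - X.L) (by simp), Z.left (X.L - (X * Y).L)
      (by rw [hXYL]; linarith [Y.L_nonneg])]
    have := hXt
    unfold FC.turn at this
    rw [this]; ring
  have v2 : (crit q θ₁ ψ 0).θ (X * Y).L = ψ + Real.pi / 2 := by
    rw [hXYZ, mul_θ, Z.left ((X * Y).L - (X * Y).L) (by simp)]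
    have : (X * Y).turn = ψ + Real.pi / 2 := by rw [turn_mul, hXt, hYt]; ring
    unfold FC.turn at this
    rw [this]; ring
  have hLtot : (crit q θ₁ ψ 0).L = X.L + Y.L + Z.L := by rw [hXYZ]; rfl
  refine conn_std_of_amplitude h0 (s := (X * Y).L) (t := X.L) ?_ ?_ ?_
  · rw [hLtot, hXYL]
    exact ⟨add_nonneg X.L_nonneg Y.L_nonneg, by linarith [Z.L_nonneg]⟩
  · rw [hLtot]
    exact ⟨X.L_nonneg, by linarith [Z.L_nonneg, Y.L_nonneg]⟩
  · rw [v1, v2]; linarith

end Pool.Agent.H804R3
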