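import Mathlib

/-!
Definitions for the Dubins curve space problem (MP_ab9fb7_gt).
-/

noncomputable section

namespace Pool.Agent.H804R3

open Set

/-- `IsDubins L γ θ`: the restriction of `γ` to `[0, L]` is a Dubins curve of length `L > 0`
(a `C¹` plane curve parametrized by arc length whose unit tangent is `1`-Lipschitz), and `θ` is its
continuous angle function, `γ' = exp (i θ)` on `[0, L]`, normalised by `θ 0 = 0`
(so that `γ' 0 = 1`). Values outside `[0, L]` play no role. -/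
structure IsDubins (L : ℝ) (γ : ℝ → ℂ) (θ : ℝ → ℝ) : Prop where
  pos : 0 < L
  continuousOn_angle : ContinuousOn θ (Icc 0 L)
  angle_zero : θ 0 = 0
  hasDeriv : ∀ s ∈ Icc (0 : ℝ) L,
    HasDerivWithinAt γ (Complex.exp (θ s * Complex.I)) (Icc 0 L) s
  lipschitz : ∀ s ∈ Icc (0 : ℝ) L, ∀ t ∈ Icc (0 : ℝ) L,
    ‖Complex.exp (θ s * Complex.I) - Complex.exp (θ t * Complex.I)‖ ≤ |s - t|

/-- `Joins q θ₁ L γ θ`: a Dubins curve of length `L` with angle function `θ` from `0` (with unit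
tangent `1`) to `q` (with unit tangent `exp (i θ₁)`), of total turning `θ L = θ₁`. -/
structure Joins (q : ℂ) (θ₁ : ℝ) (L : ℝ) (γ : ℝ → ℂ) (θ : ℝ → ℝ) : Prop
    extends IsDubins L γ θ where
  start : γ 0 = 0
  finish : γ L = q
  turning : θ L = θ₁

/-- The space of all Dubins curves from `(0, 1)` to `(q, exp (i θ₁))` of total turning `θ₁`.
Each curve is reparametrized proportionally to arc length on `[0, 1]`, giving the `C¹` curve
`t ↦ γ (L t)`, which is recorded as the pair (curve, derivative) in `C([0,1], ℂ) × C([0,1], ℂ)`;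
the topology of that product of sup-norm spaces induces the `C¹` topology. -/
def DubinsSpace (q : ℂ) (θ₁ : ℝ) : Set (C(unitInterval, ℂ) × C(unitInterval, ℂ)) :=
  {p | ∃ (L : ℝ) (γ : ℝ → ℂ) (θ : ℝ → ℝ), Joins q θ₁ L γ θ ∧
    (∀ t : unitInterval, p.1 t = γ (L * t)) ∧
    ∀ t : unitInterval, p.2 t = L * Complex.exp (θ (L * t) * Complex.I)}

/-- The amplitude `max θ - min θ` of an angle function on `[0, L]`. -/
def amplitude (L : ℝ) (θ : ℝ → ℝ) : ℝ := sSup (θ '' Icc 0 L) - sInf (θ '' Icc 0 L)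

/-- The lengths of the condensed curves (amplitude `< π`). -/
def condensedLengths (q : ℂ) (θ₁ : ℝ) : Set ℝ :=
  {L | ∃ (γ : ℝ → ℂ) (θ : ℝ → ℝ), Joins q θ₁ L γ θ ∧ amplitude L θ < Real.pi}

/-- The lengths of the diffuse curves (amplitude `> π`). -/
def diffuseLengths (q : ℂ) (θ₁ : ℝ) : Set ℝ :=
  {L | ∃ (γ : ℝ → ℂ) (θ : ℝ → ℝ), Joins q θ₁ L γ θ ∧ Real.pi < amplitude L θ}

end Pool.Agent.H804R3
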