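import Mathlib

/-!
Free curves of bounded curvature: a length and a turning function, with concatenation.
-/

noncomputable section

namespace Pool.Agent.H804R3

open Set

/-- A free curve: length `L` and turning function `θ` of arc length, extended by constants. -/
@[ext] structure FC where
  L : ℝ
  θ : ℝ → ℝ
  L_nonneg : 0 ≤ L
  lip : ∀ s t, |θ s - θ t| ≤ |s - t|
  left : ∀ s, s ≤ 0 → θ s = 0
  right : ∀ s, L ≤ s → θ s = θ L

namespace FC

theorem θ_zero (a : FC) : a.θ 0 = 0 := a.left 0 le_rfl

theorem cont (a : FC) : Continuous a.θ := by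
  have : LipschitzWith 1 a.θ := by
    refine LipschitzWith.of_dist_le_mul fun x y => ?_
    simpa [Real.dist_eq] using a.lip x y
  exact this.continuous

/-- total turning -/
def turn (a : FC) : ℝ := a.θ a.L

/-- displacement -/
def disp (a : FC) : ℂ := ∫ s in (0 : ℝ)..a.L, Complex.exp (a.θ s * Complex.I)

instance : One FC :=
  ⟨⟨0, fun _ => 0, le_rfl, by intro s t; simp, by intro s _; rfl, by intro s _; rfl⟩⟩

@[simp] theorem one_L : (1 : FC).L = 0 := rfl
@[simp] theorem one_θ (s : ℝ) : (1 : FC).θ s = 0 := rfl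

/-- concatenation -/
def mul' (a b : FC) : FC where
  L := a.L + b.L
  θ := fun s => a.θ s + b.θ (s - a.L)
  L_nonneg := add_nonneg a.L_nonneg b.L_nonneg
  lip := by
    have key : ∀ s t, s ≤ t → |(a.θ s + b.θ (s - a.L)) - (a.θ t + b.θ (t - a.L))| ≤ t - s := by
      intro s t hst
      rcases le_total t a.L with h1 | h1
      · rw [b.left (s - a.L) (by linarith), b.left (t - a.L) (by linarith)]
        have := a.lip s t
        rw [abs_sub_comm s t, abs_of_nonneg (by linarith : 0 ≤ t - s)] at this
        simpa using this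
      · rcases le_total a.L s with h2 | h2
        · rw [a.right s h2, a.right t h1]
          have := b.lip (s - a.L) (t - a.L)
          rw [abs_sub_comm (s - a.L), abs_of_nonneg (by linarith : 0 ≤ t - a.L - (s - a.L))] at this
          calc _ = |b.θ (s - a.L) - b.θ (t - a.L)| := by ring_nf
            _ ≤ _ := by linarith
        · rw [a.right t h1, b.left (s - a.L) (by linarith)]
          have h3 := a.lip s a.L
          rw [abs_sub_comm s, abs_of_nonneg (by linarith : 0 ≤ a.L - s)] at h3
          have h4 := b.lip 0 (t - a.L)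
          rw [b.θ_zero, abs_sub_comm (0 : ℝ) (t - a.L),
            abs_of_nonneg (by linarith : 0 ≤ t - a.L - 0)] at h4
          calc |a.θ s + 0 - (a.θ a.L + b.θ (t - a.L))|
              = |(a.θ s - a.θ a.L) + (0 - b.θ (t - a.L))| := by ring_nf
            _ ≤ |a.θ s - a.θ a.L| + |0 - b.θ (t - a.L)| := abs_add_le _ _
            _ ≤ _ := by linarith
    intro s t
    rcases le_total s t with h | h
    · rw [abs_sub_comm s t, abs_of_nonneg (by linarith : 0 ≤ t - s)]
      exact key s t h
    · rw [abs_of_nonneg (by linarith : 0 ≤ s - t), abs_sub_comm]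
      exact key t s h
  left := by
    intro s hs
    rw [a.left s hs, b.left (s - a.L) (by linarith [a.L_nonneg])]
    simp
  right := by
    intro s hs
    have hb := b.L_nonneg
    rw [a.right s (by linarith), a.right (a.L + b.L) (by linarith),
      b.right (s - a.L) (by linarith), b.right (a.L + b.L - a.L) (by linarith)]

instance : Mul FC := ⟨mul'⟩

@[simp] theorem mul_L (a b : FC) : (a * b).L = a.L + b.L := rfl
@[simp] theorem mul_θ (a b : FC) (s : ℝ) : (a * b).θ s = a.θ s + b.θ (s - a.L) := rfl

theorem θ_ext {a b : FC} (hL : a.L = b.L) (hθ : ∀ s, a.θ s = b.θ s) : a = b :=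
  FC.ext hL (funext hθ)

instance : Monoid FC where
  mul_assoc a b c := by
    apply θ_ext
    · simp [add_assoc]
    · intro s
      simp only [mul_θ, mul_L]
      rw [add_assoc, show s - (a.L + b.L) = s - a.L - b.L by ring]
  one_mul a := by
    apply θ_ext
    · simp
    · intro s; simp
  mul_one a := by
    apply θ_ext
    · simp
    · intro s; simp

@[simp] theorem turn_one : (1 : FC).turn = 0 := rfl

@[simp] theorem turn_mul (a b : FC) : (a * b).turn = a.turn + b.turn := by
  unfold turn
  simp only [mul_θ, mul_L]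
  rw [a.right (a.L + b.L) (by linarith [b.L_nonneg])]
  congr 2
  ring

@[simp] theorem disp_one : (1 : FC).disp = 0 := by simp [disp]

theorem cont_exp (a : FC) : Continuous fun s : ℝ => Complex.exp (a.θ s * Complex.I) := by
  have := a.cont
  fun_prop

@[simp] theorem disp_mul (a b : FC) :
    (a * b).disp = a.disp + Complex.exp (a.turn * Complex.I) * b.disp := by
  unfold disp
  have h1 := (a * b).cont_exp
  rw [← intervalIntegral.integral_add_adjacent_intervals (b := a.L)
    (h1.intervalIntegrable _ _) (h1.intervalIntegrable _ _)]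
  congr 1
  · apply intervalIntegral.integral_congr
    intro s hs
    rw [uIcc_of_le a.L_nonneg] at hs
    simp only [mul_θ]
    rw [b.left (s - a.L) (by linarith [hs.2])]
    simp
  · rw [← intervalIntegral.integral_const_mul]
    simp only [mul_L]
    have h2 := intervalIntegral.integral_comp_add_right
      (a := 0) (b := b.L) (fun s => Complex.exp ((a * b).θ s * Complex.I)) a.L
    simp only [zero_add] at h2
    rw [add_comm b.L a.L] at h2
    rw [← h2]
    apply intervalIntegral.integral_congr
    intro s hs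
    rw [uIcc_of_le b.L_nonneg] at hs
    simp only [mul_θ]
    rw [a.right (s + a.L) (by linarith [hs.1])]
    rw [← Complex.exp_add]
    congr 1
    unfold turn
    rw [show s + a.L - a.L = s by ring]
    push_cast
    ring

/-- arc of the unit circle of signed turning `α` -/
def arc (α : ℝ) : FC where
  L := |α|
  θ := fun s => max (min s α) 0 - max (min s (-α)) 0
  L_nonneg := abs_nonneg _
  lip := by
    intro s t
    rcases le_total 0 α with h | h
    · have h1 : ∀ x : ℝ, max (min x (-α)) 0 = 0 := fun x =>
        max_eq_right ((min_le_right _ _).trans (by linarith))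
      rw [h1, h1, sub_zero, sub_zero]
      refine (abs_max_sub_max_le_abs _ _ _).trans ?_
      exact abs_inf_sub_inf_le_abs _ _ _
    · have h1 : ∀ x : ℝ, max (min x α) 0 = 0 := fun x =>
        max_eq_right ((min_le_right _ _).trans (by linarith))
      rw [h1, h1, zero_sub, zero_sub, neg_sub_neg, abs_sub_comm]
      refine (abs_max_sub_max_le_abs _ _ _).trans ?_
      exact abs_inf_sub_inf_le_abs _ _ _
  left := by
    intro s hs
    rw [max_eq_right ((min_le_left _ _).trans hs), max_eq_right ((min_le_left _ _).trans hs)]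
    simp
  right := by
    intro s hs
    have h1 : α ≤ |α| := le_abs_self α
    have h2 : -α ≤ |α| := neg_le_abs α
    rw [min_eq_right (h1.trans hs), min_eq_right (h2.trans hs), min_eq_right h1, min_eq_right h2]

@[simp] theorem arc_L (α : ℝ) : (arc α).L = |α| := rfl

theorem arc_θ_pos {α : ℝ} (h : 0 ≤ α) (s : ℝ) : (arc α).θ s = max (min s α) 0 := by
  have h1 : max (min s (-α)) 0 = 0 := max_eq_right ((min_le_right _ _).trans (by linarith))
  show max (min s α) 0 - max (min s (-α)) 0 = _
  rw [h1, sub_zero]

theorem arc_θ_neg {α : ℝ} (h : α ≤ 0) (s : ℝ) : (arc α).θ s = - max (min s (-α)) 0 := by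
  have h1 : max (min s α) 0 = 0 := max_eq_right ((min_le_right _ _).trans (by linarith))
  show max (min s α) 0 - max (min s (-α)) 0 = _
  rw [h1, zero_sub]

@[simp] theorem turn_arc (α : ℝ) : (arc α).turn = α := by
  unfold turn
  rcases le_total 0 α with h | h
  · rw [arc_θ_pos h, arc_L, abs_of_nonneg h]; simp [h]
  · rw [arc_θ_neg h, arc_L, abs_of_nonpos h]; simp [h]

theorem arc_zero : arc 0 = 1 := by
  apply θ_ext
  · simp
  · intro s
    rw [arc_θ_pos le_rfl]
    simp

theorem arc_mul_arc {α β : ℝ} (hα : 0 ≤ α) (hβ : 0 ≤ β) : arc α * arc β = arc (α + β) := by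
  apply θ_ext
  · simp [abs_of_nonneg hα, abs_of_nonneg hβ, abs_of_nonneg (add_nonneg hα hβ)]
  · intro s
    rw [mul_θ, arc_θ_pos hα, arc_θ_pos hβ, arc_θ_pos (add_nonneg hα hβ), arc_L,
      abs_of_nonneg hα]
    rcases le_total s 0 with h | h
    · rw [max_eq_right ((min_le_left _ _).trans h),
        max_eq_right ((min_le_left _ _).trans (by linarith)),
        max_eq_right ((min_le_left _ _).trans h)]
      simp
    · rcases le_total s α with h1 | h1
      · rw [min_eq_left h1, max_eq_left h, max_eq_right ((min_le_left _ _).trans (by linarith)),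
          min_eq_left (by linarith : s ≤ α + β), max_eq_left h, add_zero]
      · rw [min_eq_right h1, max_eq_left hα]
        rcases le_total (s - α) β with h2 | h2
        · rw [min_eq_left h2, max_eq_left (by linarith), min_eq_left (by linarith : s ≤ α + β),
            max_eq_left h]
          ring
        · rw [min_eq_right h2, max_eq_left hβ, min_eq_right (by linarith : α + β ≤ s),
            max_eq_left (by linarith)]

theorem disp_arc_pos {α : ℝ} (h : 0 ≤ α) :
    (arc α).disp = Complex.I * (1 - Complex.exp (α * Complex.I)) := by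
  unfold disp
  rw [arc_L, abs_of_nonneg h]
  have h1 : ∫ s in (0 : ℝ)..α, Complex.exp ((arc α).θ s * Complex.I)
      = ∫ s in (0 : ℝ)..α, Complex.exp (Complex.I * s) := by
    apply intervalIntegral.integral_congr
    intro s hs
    rw [uIcc_of_le h] at hs
    simp only
    rw [arc_θ_pos h, min_eq_left hs.2, max_eq_left hs.1, mul_comm]
  rw [h1, integral_exp_mul_complex Complex.I_ne_zero]
  field_simp
  rw [Complex.I_sq]
  simp [mul_comm]

theorem disp_arc_neg {α : ℝ} (h : α ≤ 0) :
    (arc α).disp = - Complex.I * (1 - Complex.exp (α * Complex.I)) := by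
  unfold disp
  rw [arc_L, abs_of_nonpos h]
  have h1 : ∫ s in (0 : ℝ)..-α, Complex.exp ((arc α).θ s * Complex.I)
      = ∫ s in (0 : ℝ)..-α, Complex.exp (-Complex.I * s) := by
    apply intervalIntegral.integral_congr
    intro s hs
    rw [uIcc_of_le (by linarith)] at hs
    simp only
    rw [arc_θ_neg h, min_eq_left hs.2, max_eq_left hs.1]
    congr 1
    push_cast
    ring
  rw [h1, integral_exp_mul_complex (neg_ne_zero.mpr Complex.I_ne_zero)]
  field_simp
  rw [Complex.I_sq]
  simp [mul_comm]

/-- segment -/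
def seg (c : ℝ) : FC :=
  ⟨max c 0, fun _ => 0, le_max_right _ _, by intro s t; simp, by intro s _; rfl, by
    intro s _; rfl⟩

@[simp] theorem seg_L (c : ℝ) : (seg c).L = max c 0 := rfl
@[simp] theorem seg_θ (c s : ℝ) : (seg c).θ s = 0 := rfl
@[simp] theorem turn_seg (c : ℝ) : (seg c).turn = 0 := rfl
@[simp] theorem disp_seg (c : ℝ) : (seg c).disp = (max c 0 : ℝ) := by
  simp [disp]

theorem seg_zero : seg 0 = 1 := by
  apply θ_ext
  · simp
  · intro s; simp

/-- initial part of length `u` (clamped) -/
def take (a : FC) (u : ℝ) : FC where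
  L := max 0 (min u a.L)
  θ := fun s => a.θ (min s (max 0 (min u a.L)))
  L_nonneg := le_max_left _ _
  lip := by
    intro s t
    exact (a.lip _ _).trans (abs_inf_sub_inf_le_abs _ _ _)
  left := by
    intro s hs
    exact a.left _ ((min_le_left _ _).trans hs)
  right := by
    intro s hs
    rw [min_eq_right hs, min_self]

/-- final part after arc length `u` (clamped) -/
def drop (a : FC) (u : ℝ) : FC where
  L := a.L - max 0 (min u a.L)
  θ := fun s => a.θ (max s 0 + max 0 (min u a.L)) - a.θ (max 0 (min u a.L))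
  L_nonneg := sub_nonneg.mpr (max_le a.L_nonneg (min_le_right _ _))
  lip := by
    intro s t
    rw [sub_sub_sub_cancel_right]
    refine (a.lip _ _).trans ?_
    rw [add_sub_add_right_eq_sub]
    exact abs_max_sub_max_le_abs _ _ _
  left := by
    intro s hs
    rw [max_eq_right hs, zero_add, sub_self]
  right := by
    intro s hs
    have h0 : 0 ≤ a.L - max 0 (min u a.L) :=
      sub_nonneg.mpr (max_le a.L_nonneg (min_le_right _ _))
    rw [max_eq_left (h0.trans hs), max_eq_left h0, sub_add_cancel,
      a.right (s + max 0 (min u a.L)) (by linarith)]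

theorem take_mul_drop (a : FC) (u : ℝ) : a.take u * a.drop u = a := by
  have h0 : 0 ≤ max 0 (min u a.L) := le_max_left _ _
  apply θ_ext
  · simp [take, drop]
  · intro s
    show a.θ (min s (max 0 (min u a.L))) + (a.θ (max (s - max 0 (min u a.L)) 0
      + max 0 (min u a.L)) - a.θ (max 0 (min u a.L))) = a.θ s
    rcases le_total s (max 0 (min u a.L)) with h | h
    · rw [min_eq_left h, max_eq_right (by linarith), zero_add]
      ring
    · rw [min_eq_right h, max_eq_left (show (0 : ℝ) ≤ s - max 0 (min u a.L) by linarith),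
        sub_add_cancel]
      ring

theorem turn_take (a : FC) {u : ℝ} (h0 : 0 ≤ u) (h1 : u ≤ a.L) : (a.take u).turn = a.θ u := by
  unfold turn take
  simp only
  rw [min_eq_left h1, max_eq_right h0, min_self]

theorem drop_L (a : FC) {u : ℝ} (h0 : 0 ≤ u) (h1 : u ≤ a.L) : (a.drop u).L = a.L - u := by
  unfold drop
  simp only
  rw [min_eq_left h1, max_eq_right h0]

theorem drop_θ (a : FC) {u : ℝ} (h0 : 0 ≤ u) (h1 : u ≤ a.L) {s : ℝ} (hs : 0 ≤ s) :
    (a.drop u).θ s = a.θ (s + u) - a.θ u := by
  unfold drop
  simp only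
  rw [min_eq_left h1, max_eq_right h0, max_eq_left hs]

theorem take_self (a : FC) : a.take a.L = a := by
  apply θ_ext
  · simp [take, a.L_nonneg]
  · intro s
    show a.θ (min s (max 0 (min a.L a.L))) = a.θ s
    rw [min_self, max_eq_right a.L_nonneg]
    rcases le_total s a.L with h | h
    · rw [min_eq_left h]
    · rw [min_eq_right h, a.right s h]

theorem take_zero (a : FC) : a.take 0 = 1 := by
  apply θ_ext
  · simp [take, a.L_nonneg]
  · intro s
    show a.θ (min s (max 0 (min 0 a.L))) = 0
    rw [min_eq_left a.L_nonneg, max_self]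
    exact a.left _ (min_le_right _ _)

theorem exists_decomp (a : FC) {s₁ s₂ s₃ : ℝ} (h0 : 0 ≤ s₁) (h12 : s₁ ≤ s₂) (h23 : s₂ ≤ s₃)
    (h3 : s₃ ≤ a.L) :
    ∃ b c d e : FC, a = b * c * d * e ∧ b.turn = a.θ s₁ ∧ c.turn = a.θ s₂ - a.θ s₁ ∧
      d.turn = a.θ s₃ - a.θ s₂ := by
  have hs1 : s₁ ≤ a.L := by linarith
  set a1 := a.drop s₁ with ha1
  have hL1 : a1.L = a.L - s₁ := a.drop_L h0 hs1
  set a2 := a1.drop (s₂ - s₁) with ha2
  have hL2 : a2.L = a.L - s₂ := by
    rw [ha2, a1.drop_L (by linarith) (by linarith), hL1]; ring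
  have e1 : ∀ s, 0 ≤ s → a1.θ s = a.θ (s + s₁) - a.θ s₁ := fun s hs => a.drop_θ h0 hs1 hs
  have e2 : ∀ s, 0 ≤ s → a2.θ s = a1.θ (s + (s₂ - s₁)) - a1.θ (s₂ - s₁) := fun s hs =>
    a1.drop_θ (by linarith) (by linarith) hs
  refine ⟨a.take s₁, a1.take (s₂ - s₁), a2.take (s₃ - s₂), a2.drop (s₃ - s₂), ?_, ?_, ?_, ?_⟩
  · rw [mul_assoc, mul_assoc, a2.take_mul_drop, a1.take_mul_drop, a.take_mul_drop]
  · exact a.turn_take h0 hs1
  · rw [a1.turn_take (by linarith) (by linarith), e1 _ (by linarith)]
    ring_nf
  · rw [a2.turn_take (by linarith) (by linarith), e2 _ (by linarith), e1 _ (by linarith),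
      e1 _ (by linarith)]
    ring_nf

end FC

/-- continuous families of free curves -/
def CF {T : Type*} [TopologicalSpace T] (γ : T → FC) : Prop :=
  Continuous (fun t => (γ t).L) ∧ Continuous (fun p : T × ℝ => (γ p.1).θ p.2)

namespace CF

variable {T : Type*} [TopologicalSpace T]

theorem const (a : FC) : CF (fun _ : T => a) :=
  ⟨continuous_const, a.cont.comp continuous_snd⟩

theorem mul {γ δ : T → FC} (hγ : CF γ) (hδ : CF δ) : CF (fun t => γ t * δ t) := by
  refine ⟨hγ.1.add hδ.1, ?_⟩
  simp only [FC.mul_θ]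
  refine hγ.2.add ?_
  exact hδ.2.comp (continuous_fst.prodMk (continuous_snd.sub (hγ.1.comp continuous_fst)))

theorem arc {α : T → ℝ} (hα : Continuous α) : CF (fun t => FC.arc (α t)) := by
  refine ⟨by simpa using hα.abs, ?_⟩
  show Continuous fun p : T × ℝ => max (min p.2 (α p.1)) 0 - max (min p.2 (-α p.1)) 0
  fun_prop

theorem seg {c : T → ℝ} (hc : Continuous c) : CF (fun t => FC.seg (c t)) := by
  refine ⟨by simpa using hc.max continuous_const, ?_⟩
  simp only [FC.seg_θ]
  exact continuous_const

theorem take (a : FC) {u : T → ℝ} (hu : Continuous u) : CF (fun t => a.take (u t)) := by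
  refine ⟨?_, ?_⟩
  · show Continuous fun t => max 0 (min (u t) a.L)
    fun_prop
  · show Continuous fun p : T × ℝ => a.θ (min p.2 (max 0 (min (u p.1) a.L)))
    exact a.cont.comp (by fun_prop)

theorem turn {γ : T → FC} (hγ : CF γ) : Continuous (fun t => (γ t).turn) :=
  hγ.2.comp (continuous_id.prodMk hγ.1)

theorem disp {γ : T → FC} (hγ : CF γ) : Continuous (fun t => (γ t).disp) := by
  unfold FC.disp
  refine intervalIntegral.continuous_parametric_intervalIntegral_of_continuous ?_ hγ.1
  have h := hγ.2
  show Continuous fun p : T × ℝ => Complex.exp ((γ p.1).θ p.2 * Complex.I)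
  fun_prop

end CF

end Pool.Agent.H804R3
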