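import Pool.Agent.H804R3.Critical

/-!
Two condensed curves with a common axis are connected: sines of the angles as functions of the
coordinate along the axis.
-/

noncomputable section

namespace Pool.Agent.H804R3

open Set Filter Topology FC

/-! ### Inverses of expanding functions -/

theorem expand_surj {E : ℝ → ℝ} (hE : Continuous E) {ν : ℝ} (hν : 0 < ν)
    (hexp : ∀ x y, x ≤ y → ν * (y - x) ≤ E y - E x) (s : ℝ) : ∃ x, E x = s := by
  have hd : 0 ≤ |s - E 0| / ν := by positivity
  have e : ν * (|s - E 0| / ν) = |s - E 0| := by field_simp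
  apply mem_range_of_exists_le_of_exists_ge hE
  · refine ⟨-(|s - E 0| / ν), ?_⟩
    have h := hexp (-(|s - E 0| / ν)) 0 (by linarith)
    rw [zero_sub, neg_neg, e] at h
    have := neg_abs_le (s - E 0)
    linarith
  · refine ⟨|s - E 0| / ν, ?_⟩
    have h := hexp 0 (|s - E 0| / ν) hd
    rw [sub_zero, e] at h
    have := le_abs_self (s - E 0)
    linarith

theorem expand_abs {E : ℝ → ℝ} {ν : ℝ}
    (hexp : ∀ x y, x ≤ y → ν * (y - x) ≤ E y - E x) (x y : ℝ) :
    ν * |x - y| ≤ |E x - E y| := by
  rcases le_total x y with h | h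
  · rw [abs_sub_comm x y, abs_sub_comm (E x), abs_of_nonneg (by linarith : 0 ≤ y - x)]
    exact (hexp x y h).trans (le_abs_self _)
  · rw [abs_of_nonneg (by linarith : 0 ≤ x - y)]
    exact (hexp y x h).trans (le_abs_self _)

theorem expand_inj {E : ℝ → ℝ} {ν : ℝ} (hν : 0 < ν)
    (hexp : ∀ x y, x ≤ y → ν * (y - x) ≤ E y - E x) {x y : ℝ} (h : E x = E y) : x = y := by
  have := expand_abs hexp x y
  rw [h, sub_self, abs_zero] at this
  have h2 : |x - y| ≤ 0 := by
    by_contra hcon
    push Not at hcon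
    have := mul_pos hν hcon
    linarith
  have h3 := abs_nonneg (x - y)
  have h4 : |x - y| = 0 := le_antisymm h2 h3
  rw [abs_eq_zero] at h4
  linarith

theorem continuous_inv {T : Type*} [TopologicalSpace T] {E : T → ℝ → ℝ}
    (hE : Continuous fun p : T × ℝ => E p.1 p.2)
    (hexp : ∀ t x y, x ≤ y → 1 * (y - x) ≤ E t y - E t x) {J : T → ℝ → ℝ}
    (hJ : ∀ t s, E t (J t s) = s) : Continuous fun p : T × ℝ => J p.1 p.2 := by
  rw [continuous_iff_continuousAt]
  rintro ⟨t₀, s₀⟩
  have h1 : ∀ p : T × ℝ, |J p.1 p.2 - J t₀ s₀| ≤ |p.2 - E p.1 (J t₀ s₀)| := by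
    intro p
    have := expand_abs (hexp p.1) (J p.1 p.2) (J t₀ s₀)
    rw [one_mul, hJ] at this
    exact this
  have h2 : Continuous fun p : T × ℝ => |p.2 - E p.1 (J t₀ s₀)| :=
    (continuous_snd.sub (hE.comp (continuous_fst.prodMk continuous_const))).abs
  have h3 : Tendsto (fun p : T × ℝ => |p.2 - E p.1 (J t₀ s₀)|) (𝓝 (t₀, s₀)) (𝓝 0) := by
    have := h2.tendsto (t₀, s₀)
    simpa [hJ] using this
  rw [ContinuousAt, tendsto_iff_dist_tendsto_zero]
  refine squeeze_zero (fun _ => dist_nonneg) (fun p => ?_) h3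
  rw [Real.dist_eq]
  exact h1 p

/-! ### The functions `1/√(1-v²)` and `v/√(1-v²)` -/

def rr (v : ℝ) : ℝ := 1 / Real.sqrt (1 - v ^ 2)

def hh (v : ℝ) : ℝ := v / Real.sqrt (1 - v ^ 2)

theorem one_sub_sq_pos {v : ℝ} (h : |v| < 1) : 0 < 1 - v ^ 2 := by
  have := (sq_lt_one_iff_abs_lt_one v).mpr h
  linarith

theorem sqrt_pos' {v : ℝ} (h : |v| < 1) : 0 < Real.sqrt (1 - v ^ 2) :=
  Real.sqrt_pos.mpr (one_sub_sq_pos h)

theorem one_le_rr {v : ℝ} (h : |v| < 1) : 1 ≤ rr v := by
  unfold rr
  rw [le_div_iff₀ (sqrt_pos' h), one_mul]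
  rw [Real.sqrt_le_one]
  nlinarith [sq_nonneg v]

theorem hh_eq (v : ℝ) : hh v = v * rr v := by unfold hh rr; ring

theorem rr_mono {v w : ℝ} (h : |v| ≤ |w|) (hw : |w| < 1) : rr v ≤ rr w := by
  unfold rr
  apply one_div_le_one_div_of_le (sqrt_pos' hw)
  apply Real.sqrt_le_sqrt
  have := sq_le_sq.mpr h
  linarith

theorem hh_sub_ge {v w : ℝ} (h : v ≤ w) (hv : |v| < 1) (hw : |w| < 1) : w - v ≤ hh w - hh v := by
  rw [hh_eq, hh_eq]
  have rv := one_le_rr hv
  have rw' := one_le_rr hw
  rcases le_total 0 v with h0 | h0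
  · have h1 : rr v ≤ rr w := rr_mono (by rw [abs_of_nonneg h0, abs_of_nonneg (h0.trans h)]; exact h) hw
    have h2 : w * rr v ≤ w * rr w := mul_le_mul_of_nonneg_left h1 (h0.trans h)
    nlinarith
  · rcases le_total 0 w with h1 | h1
    · nlinarith
    · have h2 : rr w ≤ rr v := rr_mono (by rw [abs_of_nonpos h0, abs_of_nonpos h1]; linarith) hv
      nlinarith

/-! ### From graph data to curves -/

/-- `a` (with base value `c`) takes values of modulus at most `κ < 1` -/
structure GB (a : FC) (c κ : ℝ) : Prop where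
  lt : κ < 1
  bd : ∀ x, |c + a.θ x| ≤ κ

theorem GB.bd' {a : FC} {c κ : ℝ} (G : GB a c κ) (x : ℝ) : |c + a.θ x| < 1 :=
  (G.bd x).trans_lt G.lt

theorem continuous_rr {T : Type*} [TopologicalSpace T] {f : T → ℝ} (hf : Continuous f)
    (h : ∀ t, |f t| < 1) : Continuous fun t => rr (f t) := by
  unfold rr
  exact continuous_const.div (by fun_prop) (fun t => (sqrt_pos' (h t)).ne')

theorem continuous_hh {T : Type*} [TopologicalSpace T] {f : T → ℝ} (hf : Continuous f)
    (h : ∀ t, |f t| < 1) : Continuous fun t => hh (f t) := by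
  unfold hh
  exact hf.div (by fun_prop) (fun t => (sqrt_pos' (h t)).ne')

/-- arc length as a function of the coordinate -/
def ell (a : FC) (c x : ℝ) : ℝ := ∫ t in (0 : ℝ)..x, rr (c + a.θ t)

section

variable {a : FC} {c κ : ℝ}

theorem cont_rr (G : GB a c κ) : Continuous fun t => rr (c + a.θ t) :=
  continuous_rr (continuous_const.add a.cont) G.bd'

theorem cont_hh (G : GB a c κ) : Continuous fun t => hh (c + a.θ t) :=
  continuous_hh (continuous_const.add a.cont) G.bd'

theorem ell_zero : ell a c 0 = 0 := by simp [ell]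

theorem ell_deriv (G : GB a c κ) (x : ℝ) : HasDerivAt (ell a c) (rr (c + a.θ x)) x :=
  intervalIntegral.integral_hasDerivAt_right ((cont_rr G).intervalIntegrable _ _)
    ((cont_rr G).stronglyMeasurableAtFilter _ _) (cont_rr G).continuousAt

theorem ell_cont (G : GB a c κ) : Continuous (ell a c) :=
  continuous_iff_continuousAt.mpr fun x => (ell_deriv G x).continuousAt

theorem ell_sub (G : GB a c κ) (x y : ℝ) :
    ell a c y - ell a c x = ∫ t in x..y, rr (c + a.θ t) := by
  unfold ell
  rw [intervalIntegral.integral_interval_sub_left] <;>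
    exact (cont_rr G).intervalIntegrable _ _

theorem ell_expand (G : GB a c κ) : ∀ x y, x ≤ y → 1 * (y - x) ≤ ell a c y - ell a c x := by
  intro x y hxy
  rw [ell_sub G]
  have : ∫ _t in x..y, (1 : ℝ) = 1 * (y - x) := by simp
  rw [← this]
  apply intervalIntegral.integral_mono_on hxy (by simp) ((cont_rr G).intervalIntegrable _ _)
  intro t _
  exact one_le_rr (G.bd' t)

theorem ell_surj (G : GB a c κ) (s : ℝ) : ∃ x, ell a c x = s :=
  expand_surj (ell_cont G) one_pos (ell_expand G) s

theorem ell_inj (G : GB a c κ) {x y : ℝ} (h : ell a c x = ell a c y) : x = y :=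
  expand_inj one_pos (ell_expand G) h

theorem ell_mono (G : GB a c κ) {x y : ℝ} (h : x ≤ y) : ell a c x ≤ ell a c y := by
  have := ell_expand G x y h
  linarith

theorem le_of_ell (G : GB a c κ) {x y : ℝ} (h : ell a c x ≤ ell a c y) : x ≤ y := by
  by_contra hcon
  push Not at hcon
  have := ell_expand G y x hcon.le
  linarith

/-- inverse of the arc length -/
def ginv (a : FC) (c s : ℝ) : ℝ := Function.invFun (ell a c) s

theorem ell_ginv (G : GB a c κ) (s : ℝ) : ell a c (ginv a c s) = s :=
  Function.invFun_eq (ell_surj G s)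

theorem ginv_ell (G : GB a c κ) (x : ℝ) : ginv a c (ell a c x) = x :=
  ell_inj G (ell_ginv G _)

theorem arcsin_lip (G : GB a c κ) (x y : ℝ) :
    |Real.arcsin (c + a.θ x) - Real.arcsin (c + a.θ y)| ≤ |ell a c x - ell a c y| := by
  have key : ∀ x y, x ≤ y →
      |Real.arcsin (c + a.θ y) - Real.arcsin (c + a.θ x)| ≤ ell a c y - ell a c x := by
    intro x y hxy
    have h := a.abs_sub_le_integral (k := fun v => Real.arcsin (c + v))
      (k' := fun v => rr (c + v)) ?_ (cont_rr G) hxy
    · rw [ell_sub G]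
      refine h.trans (le_of_eq ?_)
      congr 1
      ext t
      rw [abs_of_nonneg (zero_le_one.trans (one_le_rr (G.bd' t)))]
    · intro r
      have h1 := abs_lt.mp (G.bd' r)
      have h2 := Real.hasDerivAt_arcsin (x := c + a.θ r) (by linarith [h1.1]) (by linarith [h1.2])
      have h3 : HasDerivAt (fun v => c + v) 1 (a.θ r) := (hasDerivAt_id _).const_add c
      have h4 := HasDerivAt.comp (a.θ r) h2 h3
      rw [mul_one] at h4
      exact h4
  rcases le_total x y with h | h
  · rw [abs_sub_comm, abs_sub_comm (ell a c x)]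
    exact (key x y h).trans (le_abs_self _)
  · exact (key y x h).trans (le_abs_self _)

/-- the curve with given sine function -/
def gcurve (a : FC) (c κ : ℝ) (G : GB a c κ) : FC where
  L := ell a c a.L
  θ := fun s => Real.arcsin (c + a.θ (ginv a c s)) - Real.arcsin c
  L_nonneg := by
    have := ell_mono G a.L_nonneg
    rwa [ell_zero] at this
  lip := by
    intro s t
    rw [sub_sub_sub_cancel_right]
    have := arcsin_lip G (ginv a c s) (ginv a c t)
    rwa [ell_ginv G, ell_ginv G] at this
  left := by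
    intro s hs
    have h1 : ginv a c s ≤ 0 := by
      apply le_of_ell G
      rw [ell_ginv G, ell_zero]; exact hs
    rw [a.left _ h1, add_zero, sub_self]
  right := by
    intro s hs
    have h1 : a.L ≤ ginv a c s := by
      apply le_of_ell G
      rw [ell_ginv G]; exact hs
    rw [a.right _ h1, ginv_ell G]

theorem gcurve_L (G : GB a c κ) : (gcurve a c κ G).L = ell a c a.L := rfl

theorem gcurve_turn (G : GB a c κ) :
    (gcurve a c κ G).turn = Real.arcsin (c + a.turn) - Real.arcsin c := by
  show Real.arcsin (c + a.θ (ginv a c (ell a c a.L))) - Real.arcsin c = _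
  rw [ginv_ell G]
  rfl

theorem gcurve_disp (G : GB a c κ) : (gcurve a c κ G).disp
    = Complex.exp (-(Real.arcsin c * Complex.I)) *
      (a.L + (∫ x in (0 : ℝ)..a.L, hh (c + a.θ x) : ℝ) * Complex.I) := by
  have hcv : Continuous fun s : ℝ => Complex.exp ((gcurve a c κ G).θ s * Complex.I) :=
    (gcurve a c κ G).cont_exp
  have h1 := intervalIntegral.integral_deriv_smul_comp (a := 0) (b := a.L) (f := ell a c)
    (f' := fun x => rr (c + a.θ x)) (g := fun s => Complex.exp ((gcurve a c κ G).θ s * Complex.I))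
    (fun x _ => ell_deriv G x) (cont_rr G).continuousOn hcv
  rw [ell_zero] at h1
  unfold FC.disp
  rw [gcurve_L, ← h1]
  have h2 : ∀ x, rr (c + a.θ x) • ((fun s => Complex.exp ((gcurve a c κ G).θ s * Complex.I))
      ∘ ell a c) x = Complex.exp (-(Real.arcsin c * Complex.I)) *
        (1 + (hh (c + a.θ x) : ℝ) * Complex.I) := by
    intro x
    have h3 : (gcurve a c κ G).θ (ell a c x) = Real.arcsin (c + a.θ x) - Real.arcsin c := by
      show Real.arcsin (c + a.θ (ginv a c (ell a c x))) - Real.arcsin c = _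
      rw [ginv_ell G]
    simp only [Function.comp, h3]
    have hb := abs_lt.mp (G.bd' x)
    have hs := sqrt_pos' (G.bd' x)
    have h4 : Complex.exp (((Real.arcsin (c + a.θ x) - Real.arcsin c : ℝ) : ℂ) * Complex.I)
        = Complex.exp (-(Real.arcsin c * Complex.I)) *
          Complex.exp (Real.arcsin (c + a.θ x) * Complex.I) := by
      rw [← Complex.exp_add]; congr 1; push_cast; ring
    rw [h4, exp_ofReal_I (Real.arcsin (c + a.θ x)), Real.sin_arcsin (by linarith) (by linarith),
      Real.cos_arcsin]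
    rw [Complex.real_smul]
    have h5 : ((rr (c + a.θ x) : ℝ) : ℂ) * ((Real.sqrt (1 - (c + a.θ x) ^ 2) : ℝ) : ℂ) = 1 := by
      rw [← Complex.ofReal_mul]
      unfold rr
      rw [one_div, inv_mul_cancel₀ hs.ne']
      simp
    have h6 : ((hh (c + a.θ x) : ℝ) : ℂ) = ((c + a.θ x : ℝ) : ℂ) * ((rr (c + a.θ x) : ℝ) : ℂ) := by
      rw [hh_eq]; push_cast; ring
    rw [h6]
    linear_combination Complex.exp (-(Real.arcsin c * Complex.I)) * h5
  rw [intervalIntegral.integral_congr (fun x _ => h2 x), intervalIntegral.integral_const_mul]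
  congr 1
  have hi : IntervalIntegrable (fun x => ((hh (c + a.θ x) : ℝ) : ℂ) * Complex.I)
      MeasureTheory.volume 0 a.L :=
    Continuous.intervalIntegrable
      ((Complex.continuous_ofReal.comp (cont_hh G)).mul continuous_const) _ _
  rw [intervalIntegral.integral_add (by simp) hi,
    intervalIntegral.integral_mul_const, intervalIntegral.integral_ofReal]
  simp

end

end Pool.Agent.H804R3
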