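import Pool.Agent.H804R3.Graph

/-!
Every condensed curve is given by its sine function; mixing of two sine functions.
-/

noncomputable section

namespace Pool.Agent.H804R3

open Set Filter Topology FC

/-- coordinate along the axis -/
def xco (γ : FC) (ψ s : ℝ) : ℝ := ∫ r in (0 : ℝ)..s, Real.cos (γ.θ r - ψ)

section

variable {γ : FC} {ψ β : ℝ}

theorem within_abs (W : γ.Within (ψ - β) (ψ + β)) (s : ℝ) : |γ.θ s - ψ| ≤ β := by
  have := W s
  rw [abs_le]
  constructor <;> linarith [this.1, this.2]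

theorem cos_beta_pos (hβ : β < Real.pi / 2) (W : γ.Within (ψ - β) (ψ + β)) : 0 < Real.cos β := by
  have h0 : 0 ≤ β := (abs_nonneg _).trans (within_abs W 0)
  exact Real.cos_pos_of_mem_Ioo ⟨by linarith [Real.pi_pos], hβ⟩

theorem cos_ge (hβ : β < Real.pi / 2) (W : γ.Within (ψ - β) (ψ + β)) (s : ℝ) :
    Real.cos β ≤ Real.cos (γ.θ s - ψ) := by
  rw [← Real.cos_abs (γ.θ s - ψ)]
  exact Real.cos_le_cos_of_nonneg_of_le_pi (abs_nonneg _) (by linarith [Real.pi_pos])
    (within_abs W s)

theorem cont_cos (γ : FC) (ψ : ℝ) : Continuous fun s => Real.cos (γ.θ s - ψ) := by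
  have := γ.cont
  fun_prop

theorem xco_deriv (γ : FC) (ψ s : ℝ) : HasDerivAt (xco γ ψ) (Real.cos (γ.θ s - ψ)) s :=
  intervalIntegral.integral_hasDerivAt_right ((cont_cos γ ψ).intervalIntegrable _ _)
    ((cont_cos γ ψ).stronglyMeasurableAtFilter _ _) (cont_cos γ ψ).continuousAt

theorem xco_cont (γ : FC) (ψ : ℝ) : Continuous (xco γ ψ) :=
  continuous_iff_continuousAt.mpr fun x => (xco_deriv γ ψ x).continuousAt

theorem xco_zero (γ : FC) (ψ : ℝ) : xco γ ψ 0 = 0 := by simp [xco]

theorem xco_sub (γ : FC) (ψ x y : ℝ) :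
    xco γ ψ y - xco γ ψ x = ∫ r in x..y, Real.cos (γ.θ r - ψ) := by
  unfold xco
  rw [intervalIntegral.integral_interval_sub_left] <;>
    exact (cont_cos γ ψ).intervalIntegrable _ _

theorem xco_expand (hβ : β < Real.pi / 2) (W : γ.Within (ψ - β) (ψ + β)) :
    ∀ x y, x ≤ y → Real.cos β * (y - x) ≤ xco γ ψ y - xco γ ψ x := by
  intro x y hxy
  rw [xco_sub]
  have : ∫ _t in x..y, Real.cos β = Real.cos β * (y - x) := by
    rw [intervalIntegral.integral_const, smul_eq_mul, mul_comm]
  rw [← this]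
  apply intervalIntegral.integral_mono_on hxy (by simp) ((cont_cos γ ψ).intervalIntegrable _ _)
  intro t _
  exact cos_ge hβ W t

theorem xco_mono (hβ : β < Real.pi / 2) (W : γ.Within (ψ - β) (ψ + β)) {x y : ℝ} (h : x ≤ y) :
    xco γ ψ x ≤ xco γ ψ y := by
  have h1 := xco_expand hβ W x y h
  have h2 := mul_nonneg (cos_beta_pos hβ W).le (sub_nonneg.mpr h)
  linarith

theorem le_of_xco (hβ : β < Real.pi / 2) (W : γ.Within (ψ - β) (ψ + β)) {x y : ℝ}
    (h : xco γ ψ x ≤ xco γ ψ y) : x ≤ y := by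
  by_contra hcon
  push Not at hcon
  have h1 := xco_expand hβ W y x hcon.le
  have h2 := mul_pos (cos_beta_pos hβ W) (sub_pos.mpr hcon)
  linarith

/-- inverse of the coordinate -/
def xinv (γ : FC) (ψ x : ℝ) : ℝ := Function.invFun (xco γ ψ) x

theorem xco_xinv (hβ : β < Real.pi / 2) (W : γ.Within (ψ - β) (ψ + β)) (x : ℝ) :
    xco γ ψ (xinv γ ψ x) = x :=
  Function.invFun_eq (expand_surj (xco_cont γ ψ) (cos_beta_pos hβ W) (xco_expand hβ W) x)

theorem xinv_xco (hβ : β < Real.pi / 2) (W : γ.Within (ψ - β) (ψ + β)) (s : ℝ) :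
    xinv γ ψ (xco γ ψ s) = s :=
  expand_inj (cos_beta_pos hβ W) (xco_expand hβ W) (xco_xinv hβ W _)

theorem sin_lip (hβ : β < Real.pi / 2) (W : γ.Within (ψ - β) (ψ + β)) (s t : ℝ) :
    |Real.sin (γ.θ s - ψ) - Real.sin (γ.θ t - ψ)| ≤ |xco γ ψ s - xco γ ψ t| := by
  have key : ∀ x y, x ≤ y →
      |Real.sin (γ.θ y - ψ) - Real.sin (γ.θ x - ψ)| ≤ xco γ ψ y - xco γ ψ x := by
    intro x y hxy
    have h := γ.abs_sub_le_integral (k := fun v => Real.sin (v - ψ))
      (k' := fun v => Real.cos (v - ψ)) ?_ (cont_cos γ ψ) hxy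
    · rw [xco_sub]
      refine h.trans (le_of_eq ?_)
      congr 1
      ext t
      rw [abs_of_nonneg ((cos_beta_pos hβ W).le.trans (cos_ge hβ W t))]
    · intro r
      have h1 : HasDerivAt (fun v => Real.sin (v - ψ)) (Real.cos (γ.θ r - ψ) * 1) (γ.θ r) :=
        ((hasDerivAt_id (γ.θ r)).sub_const ψ).sin
      rwa [mul_one] at h1
  rcases le_total s t with h | h
  · rw [abs_sub_comm, abs_sub_comm (xco γ ψ s)]
    exact (key s t h).trans (le_abs_self _)
  · exact (key t s h).trans (le_abs_self _)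

/-- the sine function as a function of the coordinate -/
def gdata (γ : FC) (ψ β : ℝ) (hβ : β < Real.pi / 2) (W : γ.Within (ψ - β) (ψ + β)) : FC where
  L := xco γ ψ γ.L
  θ := fun x => Real.sin (γ.θ (xinv γ ψ x) - ψ) - Real.sin (-ψ)
  L_nonneg := by
    have := xco_mono hβ W γ.L_nonneg
    rwa [xco_zero] at this
  lip := by
    intro x y
    rw [sub_sub_sub_cancel_right]
    have := sin_lip hβ W (xinv γ ψ x) (xinv γ ψ y)
    rwa [xco_xinv hβ W, xco_xinv hβ W] at this
  left := by
    intro x hx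
    have h1 : xinv γ ψ x ≤ 0 := by
      apply le_of_xco hβ W
      rw [xco_xinv hβ W, xco_zero]; exact hx
    rw [γ.left _ h1, zero_sub, sub_self]
  right := by
    intro x hx
    have h1 : γ.L ≤ xinv γ ψ x := by
      apply le_of_xco hβ W
      rw [xco_xinv hβ W]; exact hx
    rw [γ.right _ h1, xinv_xco hβ W]

theorem gdata_θ_xco (hβ : β < Real.pi / 2) (W : γ.Within (ψ - β) (ψ + β)) (s : ℝ) :
    Real.sin (-ψ) + (gdata γ ψ β hβ W).θ (xco γ ψ s) = Real.sin (γ.θ s - ψ) := by
  show Real.sin (-ψ) + (Real.sin (γ.θ (xinv γ ψ (xco γ ψ s)) - ψ) - Real.sin (-ψ)) = _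
  rw [xinv_xco hβ W]
  ring

theorem gdata_GB (hβ : β < Real.pi / 2) (W : γ.Within (ψ - β) (ψ + β)) {β' : ℝ} (h : β ≤ β')
    (hβ' : β' < Real.pi / 2) : GB (gdata γ ψ β hβ W) (Real.sin (-ψ)) (Real.sin β') where
  lt := by
    have h0 : 0 ≤ β := (abs_nonneg _).trans (within_abs W 0)
    rw [← Real.sin_pi_div_two]
    exact Real.sin_lt_sin_of_lt_of_le_pi_div_two (by linarith [Real.pi_pos]) le_rfl hβ'
  bd := by
    intro x
    have h0 : 0 ≤ β := (abs_nonneg _).trans (within_abs W 0)
    show |Real.sin (-ψ) + (Real.sin (γ.θ (xinv γ ψ x) - ψ) - Real.sin (-ψ))| ≤ _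
    rw [show ∀ u v : ℝ, u + (v - u) = v by intro u v; ring]
    have h1 := abs_le.mp ((within_abs W (xinv γ ψ x)).trans h)
    rw [abs_le]
    constructor
    · rw [← Real.sin_neg]
      exact Real.sin_le_sin_of_le_of_le_pi_div_two (by linarith) (by linarith [h1.2]) h1.1
    · exact Real.sin_le_sin_of_le_of_le_pi_div_two (by linarith [h1.1]) (by linarith) h1.2

theorem ell_xco (hβ : β < Real.pi / 2) (W : γ.Within (ψ - β) (ψ + β)) {κ : ℝ}
    (G : GB (gdata γ ψ β hβ W) (Real.sin (-ψ)) κ) (s : ℝ) :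
    ell (gdata γ ψ β hβ W) (Real.sin (-ψ)) (xco γ ψ s) = s := by
  have hder : ∀ s, HasDerivAt (fun s => ell (gdata γ ψ β hβ W) (Real.sin (-ψ)) (xco γ ψ s) - s)
      0 s := by
    intro s
    have h1 := HasDerivAt.comp s (ell_deriv G (xco γ ψ s)) (xco_deriv γ ψ s)
    have h2 := h1.sub (hasDerivAt_id s)
    rw [gdata_θ_xco hβ W] at h2
    have hc : 0 < Real.cos (γ.θ s - ψ) := (cos_beta_pos hβ W).trans_le (cos_ge hβ W s)
    have h3 : rr (Real.sin (γ.θ s - ψ)) * Real.cos (γ.θ s - ψ) = 1 := by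
      unfold rr
      rw [← Real.cos_sq', Real.sqrt_sq hc.le, one_div, inv_mul_cancel₀ hc.ne']
    rw [h3, sub_self] at h2
    exact h2
  have h4 := is_const_of_deriv_eq_zero (fun s => (hder s).differentiableAt)
    (fun s => (hder s).deriv) s 0
  simp only [xco_zero, ell_zero] at h4
  linarith

theorem psi_bound (hβ : β < Real.pi / 2) (W : γ.Within (ψ - β) (ψ + β)) :
    -(Real.pi / 2) ≤ -ψ ∧ -ψ ≤ Real.pi / 2 := by
  have := abs_le.mp (within_abs W 0)
  rw [γ.θ_zero] at this
  constructor <;> linarith [this.1, this.2]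

theorem gcurve_gdata (hβ : β < Real.pi / 2) (W : γ.Within (ψ - β) (ψ + β)) {κ : ℝ}
    (G : GB (gdata γ ψ β hβ W) (Real.sin (-ψ)) κ) :
    gcurve (gdata γ ψ β hβ W) (Real.sin (-ψ)) κ G = γ := by
  apply θ_ext
  · exact ell_xco hβ W G γ.L
  · intro s
    show Real.arcsin (Real.sin (-ψ) + (gdata γ ψ β hβ W).θ
      (ginv (gdata γ ψ β hβ W) (Real.sin (-ψ)) s)) - Real.arcsin (Real.sin (-ψ)) = γ.θ s
    have h1 : ginv (gdata γ ψ β hβ W) (Real.sin (-ψ)) s = xco γ ψ s := by
      have := ginv_ell G (xco γ ψ s)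
      rwa [ell_xco hβ W G] at this
    obtain ⟨p1, p2⟩ := psi_bound hβ W
    have h2 := abs_le.mp (within_abs W s)
    rw [h1, gdata_θ_xco hβ W, Real.arcsin_sin (by linarith [h2.1]) (by linarith [h2.2]),
      Real.arcsin_sin p1 p2]
    ring

end

/-! ### Continuity of the curve in the graph data -/

theorem CF.gcurve {T : Type*} [TopologicalSpace T] {a : T → FC} {c κ : ℝ} (ha : CF a)
    (G : ∀ t, GB (a t) c κ) : CF (fun t => gcurve (a t) c κ (G t)) := by
  have h1 : Continuous fun p : T × ℝ => ell (a p.1) c p.2 := by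
    unfold ell
    refine intervalIntegral.continuous_parametric_intervalIntegral_of_continuous
      (f := fun (p : T × ℝ) r => rr (c + (a p.1).θ r)) ?_ continuous_snd
    show Continuous fun p : (T × ℝ) × ℝ => rr (c + (a p.1.1).θ p.2)
    refine continuous_rr (continuous_const.add ?_) (fun p => (G p.1.1).bd' p.2)
    exact ha.2.comp ((continuous_fst.comp continuous_fst).prodMk continuous_snd)
  have h2 : Continuous fun p : T × ℝ => ginv (a p.1) c p.2 :=
    continuous_inv (E := fun t x => ell (a t) c x) h1 (fun t => ell_expand (G t))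
      (fun t s => ell_ginv (G t) s)
  refine ⟨?_, ?_⟩
  · exact h1.comp (continuous_id.prodMk ha.1)
  · show Continuous fun p : T × ℝ =>
      Real.arcsin (c + (a p.1).θ (ginv (a p.1) c p.2)) - Real.arcsin c
    have h3 : Continuous fun p : T × ℝ => (a p.1).θ (ginv (a p.1) c p.2) :=
      ha.2.comp (continuous_fst.prodMk h2)
    exact (Real.continuous_arcsin.comp (continuous_const.add h3)).sub continuous_const

/-! ### Mixing -/

/-- the mixture of two graph data -/
def mixFC (a b : FC) (hL : a.L = b.L) (α β : unitInterval) : FC where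
  L := a.L
  θ := fun x => a.θ x + α * max (b.θ x - a.θ x) 0 - β * max (a.θ x - b.θ x) 0
  L_nonneg := a.L_nonneg
  lip := by
    have key : ∀ x y, b.θ y - a.θ y ≤ b.θ x - a.θ x → ∀ M, |a.θ x - a.θ y| ≤ M →
        |b.θ x - b.θ y| ≤ M →
        |(a.θ x + α * max (b.θ x - a.θ x) 0 - β * max (a.θ x - b.θ x) 0)
          - (a.θ y + α * max (b.θ y - a.θ y) 0 - β * max (a.θ y - b.θ y) 0)| ≤ M := by
      intro x y h M h1 h2
      have hα := α.2
      have hβ := β.2
      obtain ⟨α, hα0, hα1⟩ := α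
      obtain ⟨β, hβ0, hβ1⟩ := β
      simp only at *
      rw [abs_le] at h1 h2 ⊢
      rcases le_total 0 (b.θ y - a.θ y) with hy | hy
      · have hx : 0 ≤ b.θ x - a.θ x := hy.trans h
        rw [max_eq_left hx, max_eq_left hy, max_eq_right (by linarith : a.θ x - b.θ x ≤ 0),
          max_eq_right (by linarith : a.θ y - b.θ y ≤ 0)]
        constructor <;> nlinarith
      · rcases le_total 0 (b.θ x - a.θ x) with hx | hx
        · rw [max_eq_left hx, max_eq_right hy, max_eq_right (by linarith : a.θ x - b.θ x ≤ 0),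
            max_eq_left (by linarith : 0 ≤ a.θ y - b.θ y)]
          constructor <;> nlinarith
        · rw [max_eq_right hx, max_eq_right hy, max_eq_left (by linarith : 0 ≤ a.θ x - b.θ x),
            max_eq_left (by linarith : 0 ≤ a.θ y - b.θ y)]
          constructor <;> nlinarith
    intro x y
    rcases le_total (b.θ y - a.θ y) (b.θ x - a.θ x) with h | h
    · exact key x y h _ (a.lip x y) (b.lip x y)
    · rw [abs_sub_comm, abs_sub_comm x y]
      exact key y x h _ (a.lip y x) (b.lip y x)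
  left := by
    intro s hs
    rw [a.left s hs, b.left s hs]
    simp
  right := by
    intro s hs
    rw [a.right s hs, b.right s (hL ▸ hs), ← b.right a.L hL.symm.le]

section

variable {a b : FC} {c κ : ℝ}

theorem mix_between (hL : a.L = b.L) (α β : unitInterval) (x lo hi : ℝ)
    (h1 : lo ≤ a.θ x) (h2 : a.θ x ≤ hi) (h3 : lo ≤ b.θ x) (h4 : b.θ x ≤ hi) :
    lo ≤ (mixFC a b hL α β).θ x ∧ (mixFC a b hL α β).θ x ≤ hi := by
  show lo ≤ a.θ x + α * max (b.θ x - a.θ x) 0 - β * max (a.θ x - b.θ x) 0 ∧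
    a.θ x + α * max (b.θ x - a.θ x) 0 - β * max (a.θ x - b.θ x) 0 ≤ hi
  obtain ⟨α, hα0, hα1⟩ := α
  obtain ⟨β, hβ0, hβ1⟩ := β
  simp only
  rcases le_total 0 (b.θ x - a.θ x) with hx | hx
  · rw [max_eq_left hx, max_eq_right (by linarith : a.θ x - b.θ x ≤ 0)]
    constructor <;> nlinarith
  · rw [max_eq_right hx, max_eq_left (by linarith : 0 ≤ a.θ x - b.θ x)]
    constructor <;> nlinarith

theorem mix_GB (hL : a.L = b.L) (Ga : GB a c κ) (Gb : GB b c κ) (α β : unitInterval) :
    GB (mixFC a b hL α β) c κ where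
  lt := Ga.lt
  bd := by
    intro x
    have h1 := abs_le.mp (Ga.bd x)
    have h2 := abs_le.mp (Gb.bd x)
    have h3 := mix_between hL α β x (-κ - c) (κ - c) (by linarith [h1.1]) (by linarith [h1.2])
      (by linarith [h2.1]) (by linarith [h2.2])
    rw [abs_le]
    constructor <;> linarith [h3.1, h3.2]

theorem mix_zero_zero (hL : a.L = b.L) : mixFC a b hL 0 0 = a := by
  apply θ_ext
  · rfl
  · intro s
    show a.θ s + ((0 : unitInterval) : ℝ) * max (b.θ s - a.θ s) 0
      - ((0 : unitInterval) : ℝ) * max (a.θ s - b.θ s) 0 = a.θ s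
    simp

theorem mix_one_one (hL : a.L = b.L) : mixFC a b hL 1 1 = b := by
  apply θ_ext
  · exact hL
  · intro s
    show a.θ s + ((1 : unitInterval) : ℝ) * max (b.θ s - a.θ s) 0
      - ((1 : unitInterval) : ℝ) * max (a.θ s - b.θ s) 0 = b.θ s
    have := max_neg_sub (b.θ s - a.θ s)
    rw [neg_sub] at this
    simp only [Set.Icc.coe_one, one_mul]
    linarith

theorem mix_turn (hL : a.L = b.L) (ht : a.turn = b.turn) (α β : unitInterval) :
    (mixFC a b hL α β).turn = a.turn := by
  show a.θ a.L + α * max (b.θ a.L - a.θ a.L) 0 - β * max (a.θ a.L - b.θ a.L) 0 = a.turn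
  have h1 : b.θ a.L = a.θ a.L := by
    unfold FC.turn at ht
    rw [hL] at ht ⊢
    exact ht.symm
  rw [h1]
  simp [FC.turn]

theorem mix_cf (hL : a.L = b.L) {T : Type*} [TopologicalSpace T] {α β : T → unitInterval}
    (hα : Continuous α) (hβ : Continuous β) : CF (fun t => mixFC a b hL (α t) (β t)) := by
  refine ⟨continuous_const, ?_⟩
  show Continuous fun p : T × ℝ => a.θ p.2 + α p.1 * max (b.θ p.2 - a.θ p.2) 0
    - β p.1 * max (a.θ p.2 - b.θ p.2) 0
  have h1 : Continuous fun p : T × ℝ => a.θ p.2 := a.cont.comp continuous_snd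
  have h2 : Continuous fun p : T × ℝ => b.θ p.2 := b.cont.comp continuous_snd
  have h3 : Continuous fun p : T × ℝ => ((α p.1 : unitInterval) : ℝ) :=
    continuous_subtype_val.comp (hα.comp continuous_fst)
  have h4 : Continuous fun p : T × ℝ => ((β p.1 : unitInterval) : ℝ) :=
    continuous_subtype_val.comp (hβ.comp continuous_fst)
  fun_prop

/-- the functional to be kept constant -/
def HH (a b : FC) (hL : a.L = b.L) (c : ℝ) (α β : unitInterval) : ℝ :=
  ∫ x in (0 : ℝ)..a.L, hh (c + (mixFC a b hL α β).θ x)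

theorem HH_cont (hL : a.L = b.L) (Ga : GB a c κ) (Gb : GB b c κ) :
    Continuous fun p : unitInterval × unitInterval => HH a b hL c p.1 p.2 := by
  unfold HH
  refine intervalIntegral.continuous_parametric_intervalIntegral_of_continuous
    (f := fun (p : unitInterval × unitInterval) x => hh (c + (mixFC a b hL p.1 p.2).θ x)) ?_
    continuous_const
  show Continuous fun p : (unitInterval × unitInterval) × ℝ =>
    hh (c + (mixFC a b hL p.1.1 p.1.2).θ p.2)
  refine continuous_hh (continuous_const.add ?_)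
    (fun p => (mix_GB hL Ga Gb p.1.1 p.1.2).bd' p.2)
  exact (mix_cf hL continuous_fst continuous_snd).2

theorem HH_mono (hL : a.L = b.L) (Ga : GB a c κ) (Gb : GB b c κ) {α α' : unitInterval}
    (h : α ≤ α') (β : unitInterval) :
    ((α' : ℝ) - α) * (∫ x in (0 : ℝ)..a.L, max (b.θ x - a.θ x) 0)
      ≤ HH a b hL c α' β - HH a b hL c α β := by
  unfold HH
  have ha := a.cont
  have hb := b.cont
  have G1 := mix_GB hL Ga Gb α β
  have G2 := mix_GB hL Ga Gb α' β
  rw [← intervalIntegral.integral_sub ((cont_hh G2).intervalIntegrable _ _)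
    ((cont_hh G1).intervalIntegrable _ _), ← intervalIntegral.integral_const_mul]
  apply intervalIntegral.integral_mono_on a.L_nonneg
  · exact Continuous.intervalIntegrable (by fun_prop) _ _
  · exact ((cont_hh G2).sub (cont_hh G1)).intervalIntegrable _ _
  · intro x _
    have e : (c + (mixFC a b hL α' β).θ x) - (c + (mixFC a b hL α β).θ x)
        = ((α' : ℝ) - α) * max (b.θ x - a.θ x) 0 := by
      show (c + (a.θ x + α' * max (b.θ x - a.θ x) 0 - β * max (a.θ x - b.θ x) 0))
        - (c + (a.θ x + α * max (b.θ x - a.θ x) 0 - β * max (a.θ x - b.θ x) 0)) = _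
      ring
    have hle : 0 ≤ ((α' : ℝ) - α) * max (b.θ x - a.θ x) 0 :=
      mul_nonneg (sub_nonneg.mpr h) (le_max_right _ _)
    rw [← e]
    exact hh_sub_ge (by linarith) (G1.bd' x) (G2.bd' x)

theorem HH_anti (hL : a.L = b.L) (Ga : GB a c κ) (Gb : GB b c κ) (α : unitInterval)
    {β β' : unitInterval} (h : β ≤ β') :
    ((β' : ℝ) - β) * (∫ x in (0 : ℝ)..a.L, max (a.θ x - b.θ x) 0)
      ≤ HH a b hL c α β - HH a b hL c α β' := by
  unfold HH
  have ha := a.cont
  have hb := b.cont
  have G1 := mix_GB hL Ga Gb α β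
  have G2 := mix_GB hL Ga Gb α β'
  rw [← intervalIntegral.integral_sub ((cont_hh G1).intervalIntegrable _ _)
    ((cont_hh G2).intervalIntegrable _ _), ← intervalIntegral.integral_const_mul]
  apply intervalIntegral.integral_mono_on a.L_nonneg
  · exact Continuous.intervalIntegrable (by fun_prop) _ _
  · exact ((cont_hh G1).sub (cont_hh G2)).intervalIntegrable _ _
  · intro x _
    have e : (c + (mixFC a b hL α β).θ x) - (c + (mixFC a b hL α β').θ x)
        = ((β' : ℝ) - β) * max (a.θ x - b.θ x) 0 := by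
      show (c + (a.θ x + α * max (b.θ x - a.θ x) 0 - β * max (a.θ x - b.θ x) 0))
        - (c + (a.θ x + α * max (b.θ x - a.θ x) 0 - β' * max (a.θ x - b.θ x) 0)) = _
      ring
    have hle : 0 ≤ ((β' : ℝ) - β) * max (a.θ x - b.θ x) 0 :=
      mul_nonneg (sub_nonneg.mpr h) (le_max_right _ _)
    rw [← e]
    exact hh_sub_ge (by linarith) (G2.bd' x) (G1.bd' x)

theorem integral_max_nonneg (f : ℝ → ℝ) {L : ℝ} (hL : 0 ≤ L) :
    0 ≤ ∫ x in (0 : ℝ)..L, max (f x) 0 :=
  intervalIntegral.integral_nonneg hL (fun _ _ => le_max_right _ _)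

theorem exists_beta (hL : a.L = b.L) (Ga : GB a c κ) (Gb : GB b c κ)
    (hν : 0 < ∫ x in (0 : ℝ)..a.L, max (a.θ x - b.θ x) 0)
    (hY : HH a b hL c 1 1 = HH a b hL c 0 0) :
    ∃ B : unitInterval → unitInterval, Continuous B ∧
      (∀ α, HH a b hL c α (B α) = HH a b hL c 0 0) ∧ B 0 = 0 ∧ B 1 = 1 := by
  set ν := ∫ x in (0 : ℝ)..a.L, max (a.θ x - b.θ x) 0 with hνd
  have hν' := integral_max_nonneg (fun x => b.θ x - a.θ x) a.L_nonneg
  have hcont := HH_cont hL Ga Gb
  have hex : ∀ α : unitInterval, ∃ β : unitInterval, HH a b hL c α β = HH a b hL c 0 0 := by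
    intro α
    have h1 : HH a b hL c 0 0 ≤ HH a b hL c α 0 := by
      have := HH_mono hL Ga Gb (show (0 : unitInterval) ≤ α from α.2.1) 0
      have h2 := mul_nonneg (sub_nonneg.mpr (show ((0 : unitInterval) : ℝ) ≤ α from α.2.1)) hν'
      linarith
    have h2 : HH a b hL c α 1 ≤ HH a b hL c 0 0 := by
      rw [← hY]
      have := HH_mono hL Ga Gb (show α ≤ (1 : unitInterval) from α.2.2) 1
      have h2 := mul_nonneg (sub_nonneg.mpr (show (α : ℝ) ≤ ((1 : unitInterval) : ℝ) from α.2.2))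
        hν'
      linarith
    have hc : Continuous fun β : unitInterval => HH a b hL c α β :=
      hcont.comp (continuous_const.prodMk continuous_id)
    exact mem_range_of_exists_le_of_exists_ge hc ⟨1, h2⟩ ⟨0, h1⟩
  choose B hB using hex
  have habs : ∀ α β β' : unitInterval, ν * |(β : ℝ) - β'| ≤
      |HH a b hL c α β - HH a b hL c α β'| := by
    intro α β β'
    rcases le_total β β' with h | h
    · have h1 := HH_anti hL Ga Gb α h
      rw [abs_sub_comm, abs_of_nonneg (sub_nonneg.mpr (show (β : ℝ) ≤ β' from h)), mul_comm]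
      exact h1.trans (le_abs_self _)
    · have h1 := HH_anti hL Ga Gb α h
      rw [abs_of_nonneg (sub_nonneg.mpr (show (β' : ℝ) ≤ β from h)), mul_comm, abs_sub_comm]
      exact h1.trans (le_abs_self _)
  have hzero : ∀ α β : unitInterval, HH a b hL c α β = HH a b hL c 0 0 → B α = β := by
    intro α β h
    have := habs α (B α) β
    rw [hB, h, sub_self, abs_zero] at this
    have h2 : |((B α : unitInterval) : ℝ) - β| = 0 := by
      apply le_antisymm _ (abs_nonneg _)
      by_contra hcon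
      push Not at hcon
      have := mul_pos hν hcon
      linarith
    rw [abs_eq_zero, sub_eq_zero] at h2
    exact Subtype.ext h2
  refine ⟨B, ?_, hB, hzero 0 0 rfl, hzero 1 1 hY⟩
  rw [continuous_iff_continuousAt]
  intro α₀
  rw [ContinuousAt, tendsto_iff_dist_tendsto_zero]
  have h1 : Continuous fun α : unitInterval =>
      |HH a b hL c α (B α₀) - HH a b hL c 0 0| / ν :=
    ((hcont.comp (continuous_id.prodMk continuous_const)).sub continuous_const).abs.div_const _
  have h2 : Tendsto (fun α : unitInterval => |HH a b hL c α (B α₀) - HH a b hL c 0 0| / ν)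
      (𝓝 α₀) (𝓝 0) := by
    have := h1.tendsto α₀
    simpa [hB] using this
  refine squeeze_zero (fun _ => dist_nonneg) (fun α => ?_) h2
  rw [Subtype.dist_eq, Real.dist_eq, le_div_iff₀ hν, mul_comm]
  have := habs α (B α) (B α₀)
  rw [hB α, abs_sub_comm (HH a b hL c 0 0)] at this
  exact this

end

end Pool.Agent.H804R3
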