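import Pool.Agent.H804R3.Norm

/-!
The variation inequality and its consequences.
-/

noncomputable section

namespace Pool.Agent.H804R3

open Set Filter Topology FC

theorem FC.slope_bound (a : FC) {k : ℝ → ℝ} {k0 x : ℝ} (hk : HasDerivAt k k0 (a.θ x)) {r : ℝ}
    (hr : |k0| < r) : ∀ᶠ z in 𝓝[>] x, slope (fun s => k (a.θ s)) x z < r := by
  have hc : 0 < (r - |k0|) / 2 := by linarith
  have h1 := (hasDerivAt_iff_isLittleO.mp hk).def hc
  have h2 : ∀ᶠ z in 𝓝[>] x, ‖k (a.θ z) - k (a.θ x) - (a.θ z - a.θ x) • k0‖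
      ≤ (r - |k0|) / 2 * ‖a.θ z - a.θ x‖ :=
    (a.cont.continuousAt.eventually h1).filter_mono nhdsWithin_le_nhds
  filter_upwards [h2, self_mem_nhdsWithin] with z hz hxz
  have hxz' : 0 < z - x := sub_pos.mpr hxz
  rw [slope_def_field, div_lt_iff₀ hxz']
  have h3 := a.lip z x
  rw [abs_of_pos hxz'] at h3
  rw [Real.norm_eq_abs, Real.norm_eq_abs, smul_eq_mul] at hz
  have h4 := le_abs_self (k (a.θ z) - k (a.θ x) - (a.θ z - a.θ x) * k0)
  have h5 : (a.θ z - a.θ x) * k0 ≤ |a.θ z - a.θ x| * |k0| := by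
    rw [← abs_mul]; exact le_abs_self _
  have h6 : |a.θ z - a.θ x| * |k0| ≤ (z - x) * |k0| :=
    mul_le_mul_of_nonneg_right h3 (abs_nonneg _)
  have h7 : (r - |k0|) / 2 * |a.θ z - a.θ x| ≤ (r - |k0|) / 2 * (z - x) :=
    mul_le_mul_of_nonneg_left h3 hc.le
  nlinarith

theorem FC.sub_le_integral (a : FC) {k k' : ℝ → ℝ}
    (hk : ∀ r, HasDerivAt k (k' (a.θ r)) (a.θ r))
    (hk' : Continuous fun r => k' (a.θ r)) {s t : ℝ} (hst : s ≤ t) :
    k (a.θ t) - k (a.θ s) ≤ ∫ r in s..t, |k' (a.θ r)| := by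
  have hcont : Continuous fun r => |k' (a.θ r)| := hk'.abs
  have hkc : Continuous fun r => k (a.θ r) := continuous_iff_continuousAt.mpr fun r =>
    ContinuousAt.comp (hk r).continuousAt a.cont.continuousAt
  have h := image_le_of_liminf_slope_right_le_deriv_boundary
    (f := fun r => k (a.θ r)) (a := s) (b := t)
    (B := fun x => k (a.θ s) + ∫ r in s..x, |k' (a.θ r)|) (B' := fun x => |k' (a.θ x)|)
    hkc.continuousOn (by simp) ?_ ?_ ?_
  · have := h (right_mem_Icc.mpr hst)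
    linarith
  · have : Continuous fun x => k (a.θ s) + ∫ r in s..x, |k' (a.θ r)| :=
      continuous_const.add (intervalIntegral.continuous_primitive
        (fun _ _ => hcont.intervalIntegrable _ _) s)
    exact this.continuousOn
  · intro x _
    have := intervalIntegral.integral_hasDerivAt_right (hcont.intervalIntegrable s x)
      (hcont.stronglyMeasurableAtFilter _ _) hcont.continuousAt
    exact (this.const_add (k (a.θ s))).hasDerivWithinAt
  · intro x _ r hr
    exact (a.slope_bound (hk x) hr).frequently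

theorem FC.abs_sub_le_integral (a : FC) {k k' : ℝ → ℝ}
    (hk : ∀ r, HasDerivAt k (k' (a.θ r)) (a.θ r))
    (hk' : Continuous fun r => k' (a.θ r)) {s t : ℝ} (hst : s ≤ t) :
    |k (a.θ t) - k (a.θ s)| ≤ ∫ r in s..t, |k' (a.θ r)| := by
  rw [abs_le]
  constructor
  · have := a.sub_le_integral (k := fun x => -k x) (k' := fun x => -k' x)
      (fun x => (hk x).neg) hk'.neg hst
    simp only [abs_neg] at this
    linarith
  · exact a.sub_le_integral hk hk' hst

/-- The variation inequality: a curve which visits the angles `θ sA` and `θ sB`. -/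
theorem FC.visit (a : FC) {k k' : ℝ → ℝ} (hk : ∀ x, HasDerivAt k (k' x) x)
    (hk' : Continuous k') {sA sB : ℝ} (hA : sA ∈ Icc 0 a.L) (hB : sB ∈ Icc 0 a.L)
    (h01 : k 0 ≤ k a.turn) (hpos : ∀ s, 0 ≤ k' (a.θ s)) :
    2 * (k (a.θ sA) - k (a.θ sB)) - (k a.turn - k 0) ≤ ∫ r in (0 : ℝ)..a.L, k' (a.θ r) := by
  replace hk' : Continuous fun r => k' (a.θ r) := hk'.comp a.cont
  replace hk : ∀ r, HasDerivAt k (k' (a.θ r)) (a.θ r) := fun r => hk _
  have hcont : Continuous fun r => |k' (a.θ r)| := hk'.abs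
  have hi : ∀ x y, IntervalIntegrable (fun r => |k' (a.θ r)|) MeasureTheory.volume x y :=
    fun x y => hcont.intervalIntegrable x y
  have e : ∫ r in (0 : ℝ)..a.L, k' (a.θ r) = ∫ r in (0 : ℝ)..a.L, |k' (a.θ r)| := by
    congr 1
    ext r
    rw [abs_of_nonneg (hpos r)]
  rw [e]
  rcases le_total sA sB with h | h
  · rw [← intervalIntegral.integral_add_adjacent_intervals (hi 0 sB) (hi sB a.L),
      ← intervalIntegral.integral_add_adjacent_intervals (hi 0 sA) (hi sA sB)]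
    have h1 := a.abs_sub_le_integral hk hk' hA.1
    have h2 := a.abs_sub_le_integral hk hk' h
    have h3 := a.abs_sub_le_integral hk hk' hB.2
    rw [a.θ_zero] at h1
    have h4 := le_abs_self (k (a.θ sA) - k 0)
    have h5 := neg_le_abs (k (a.θ sB) - k (a.θ sA))
    have h6 := le_abs_self (k (a.θ a.L) - k (a.θ sB))
    unfold FC.turn at h01 ⊢
    linarith
  · rw [← intervalIntegral.integral_add_adjacent_intervals (hi 0 sA) (hi sA a.L),
      ← intervalIntegral.integral_add_adjacent_intervals (hi 0 sB) (hi sB sA)]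
    have h1 := a.abs_sub_le_integral hk hk' hB.1
    have h2 := a.abs_sub_le_integral hk hk' h
    have h3 := a.abs_sub_le_integral hk hk' hA.2
    rw [a.θ_zero] at h1
    have h4 := neg_le_abs (k (a.θ sB) - k 0)
    have h5 := le_abs_self (k (a.θ sA) - k (a.θ sB))
    have h6 := neg_le_abs (k (a.θ a.L) - k (a.θ sA))
    unfold FC.turn at h01 ⊢
    linarith

/-- length is at least `2 * amplitude - turning` -/
theorem FC.length_ge (a : FC) {sA sB : ℝ} (hA : sA ∈ Icc 0 a.L) (hB : sB ∈ Icc 0 a.L)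
    (h01 : 0 ≤ a.turn) : 2 * (a.θ sA - a.θ sB) - a.turn ≤ a.L := by
  have := a.visit (k := fun x => x) (k' := fun _ => 1) (fun x => hasDerivAt_id x)
    continuous_const hA hB h01 (fun _ => zero_le_one)
  simpa using this

/-- the height function `Re (w e^{-iψ})`, `w = q + i - i e^{iθ₁}` -/
def P (q : ℂ) (θ₁ ψ : ℝ) : ℝ :=
  (q.re + Real.sin θ₁) * Real.cos ψ + (q.im + 1 - Real.cos θ₁) * Real.sin ψ

/-- the derivative of the height function -/
def P' (q : ℂ) (θ₁ ψ : ℝ) : ℝ :=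
  -((q.re + Real.sin θ₁) * Real.sin ψ) + (q.im + 1 - Real.cos θ₁) * Real.cos ψ

theorem P_eq (q : ℂ) (θ₁ ψ : ℝ) : P q θ₁ ψ = q.re * Real.cos ψ + q.im * Real.sin ψ
    + Real.sin ψ + Real.sin (θ₁ - ψ) := by
  unfold P
  rw [Real.sin_sub]
  ring

theorem P_add (q : ℂ) (θ₁ ψ δ : ℝ) :
    P q θ₁ (ψ + δ) = P q θ₁ ψ * Real.cos δ + P' q θ₁ ψ * Real.sin δ := by
  unfold P P'
  rw [Real.cos_add, Real.sin_add]
  ring

theorem P'_add (q : ℂ) (θ₁ ψ δ : ℝ) :
    P' q θ₁ (ψ + δ) = P' q θ₁ ψ * Real.cos δ - P q θ₁ ψ * Real.sin δ := by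
  unfold P P'
  rw [Real.cos_add, Real.sin_add]
  ring

theorem P_sq_add (q : ℂ) (θ₁ ψ ψ' : ℝ) :
    P q θ₁ ψ ^ 2 + P' q θ₁ ψ ^ 2 = P q θ₁ ψ' ^ 2 + P' q θ₁ ψ' ^ 2 := by
  have h : ∀ x, P q θ₁ x ^ 2 + P' q θ₁ x ^ 2
      = (q.re + Real.sin θ₁) ^ 2 + (q.im + 1 - Real.cos θ₁) ^ 2 := by
    intro x
    unfold P P'
    have := Real.sin_sq_add_cos_sq x
    linear_combination ((q.re + Real.sin θ₁) ^ 2 + (q.im + 1 - Real.cos θ₁) ^ 2) * this
  rw [h, h]

theorem P_cont (q : ℂ) (θ₁ : ℝ) : Continuous (P q θ₁) := by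
  unfold P; fun_prop

theorem P'_cont (q : ℂ) (θ₁ : ℝ) : Continuous (P' q θ₁) := by
  unfold P'; fun_prop

/-- the projected displacement -/
theorem FC.integral_cos (a : FC) (ψ : ℝ) :
    ∫ s in (0 : ℝ)..a.L, Real.cos (a.θ s - ψ) = a.disp.re * Real.cos ψ + a.disp.im * Real.sin ψ := by
  have h1 : IntervalIntegrable (fun s => Complex.exp (a.θ s * Complex.I)) MeasureTheory.volume
      0 a.L := a.cont_exp.intervalIntegrable _ _
  have hc := a.cont
  have hre : a.disp.re = ∫ s in (0 : ℝ)..a.L, Real.cos (a.θ s) := by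
    unfold FC.disp
    have := intervalIntegral.intervalIntegral_re h1
    have h2 := Complex.reCLM.intervalIntegral_comp_comm h1
    simp only [Complex.reCLM_apply] at h2
    rw [← h2]
    congr 1
    ext s
    rw [Complex.exp_ofReal_mul_I_re]
  have him : a.disp.im = ∫ s in (0 : ℝ)..a.L, Real.sin (a.θ s) := by
    unfold FC.disp
    have h2 := Complex.imCLM.intervalIntegral_comp_comm h1
    simp only [Complex.imCLM_apply] at h2
    rw [← h2]
    congr 1
    ext s
    rw [Complex.exp_ofReal_mul_I_im]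
  rw [hre, him, ← intervalIntegral.integral_mul_const, ← intervalIntegral.integral_mul_const,
    ← intervalIntegral.integral_add]
  · congr 1
    ext s
    rw [Real.cos_sub]
  · exact Continuous.intervalIntegrable (by fun_prop) _ _
  · exact Continuous.intervalIntegrable (by fun_prop) _ _

theorem FC.P_eq_integral {q : ℂ} {θ₁ : ℝ} {a : FC} (ha : a ∈ FC.S q θ₁) (ψ : ℝ) :
    P q θ₁ ψ = (∫ s in (0 : ℝ)..a.L, Real.cos (a.θ s - ψ)) + Real.sin ψ + Real.sin (θ₁ - ψ) := by
  rw [P_eq, a.integral_cos, ha.2.1]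

end Pool.Agent.H804R3
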