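import Pool.Agent.H804R3.Ineq

/-!
The main inequality and the choice of an axis.
-/

noncomputable section

namespace Pool.Agent.H804R3

open Set Filter Topology FC

theorem one_le_cos_add {t : ℝ} (h0 : 0 ≤ t) (h1 : t ≤ Real.pi / 2) :
    1 ≤ Real.cos t + t * Real.sin t := by
  have hpi := Real.pi_pos
  have e1 : Real.cos t = 1 - 2 * Real.sin (t / 2) ^ 2 := by
    have := Real.cos_sq' (t / 2)
    have h2 := Real.cos_two_mul (t / 2)
    rw [show 2 * (t / 2) = t by ring] at h2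
    rw [h2, this]; ring
  have e2 : Real.sin t = 2 * Real.sin (t / 2) * Real.cos (t / 2) := by
    have h2 := Real.sin_two_mul (t / 2)
    rwa [show 2 * (t / 2) = t by ring] at h2
  have h2 : Real.sin (t / 2) ≤ t / 2 := Real.sin_le (by linarith)
  have h3 : 0 ≤ Real.sin (t / 2) := Real.sin_nonneg_of_nonneg_of_le_pi (by linarith) (by linarith)
  have h4 : 1 / 2 ≤ Real.cos (t / 2) := by
    rw [← Real.cos_pi_div_three]
    exact Real.cos_le_cos_of_nonneg_of_le_pi (by linarith) (by linarith) (by linarith)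
  have h5 : Real.sin (t / 2) ≤ t * Real.cos (t / 2) := by nlinarith
  rw [e1, e2]
  nlinarith

section

variable {q : ℂ} {θ₁ : ℝ} {a : FC} {sA sB : ℝ}

theorem range_facts (ha : a ∈ FC.S q θ₁) (hmax : ∀ s, a.θ s ≤ a.θ sA)
    (hmin : ∀ s, a.θ sB ≤ a.θ s) :
    0 ≤ a.θ sA ∧ a.θ sB ≤ 0 ∧ θ₁ ≤ a.θ sA ∧ a.θ sB ≤ θ₁ := by
  have h0 := a.θ_zero
  have h1 : a.θ a.L = θ₁ := ha.2.2
  refine ⟨?_, ?_, ?_, ?_⟩
  · rw [← h0]; exact hmax 0
  · rw [← h0]; exact hmin 0
  · rw [← h1]; exact hmax _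
  · rw [← h1]; exact hmin _

/-- Main inequality. -/
theorem main_ineq (ha : a ∈ FC.S q θ₁) (hθ : 0 ≤ θ₁) (hA : sA ∈ Icc 0 a.L) (hB : sB ∈ Icc 0 a.L)
    (hmax : ∀ s, a.θ s ≤ a.θ sA) (hmin : ∀ s, a.θ sB ≤ a.θ s)
    (hω : a.θ sA - a.θ sB ≤ Real.pi) :
    4 * Real.sin ((a.θ sA - a.θ sB) / 2)
      + (a.L - 2 * (a.θ sA - a.θ sB) + θ₁) * Real.cos ((a.θ sA - a.θ sB) / 2)
      ≤ P q θ₁ ((a.θ sA + a.θ sB) / 2) := by
  have hpi := Real.pi_pos
  obtain ⟨f1, f2, f3, f4⟩ := range_facts ha hmax hmin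
  set A := a.θ sA with hAdef
  set b := a.θ sB with hbdef
  set ψ := (A + b) / 2 with hψ
  set c := Real.cos ((A - b) / 2) with hc
  have hk : ∀ x, HasDerivAt (fun x => Real.sin (x - ψ) - x * c) (Real.cos (x - ψ) - c) x := by
    intro x
    have h1 : HasDerivAt (fun x => Real.sin (x - ψ)) (Real.cos (x - ψ) * 1) x :=
      ((hasDerivAt_id x).sub_const ψ).sin
    have h2 : HasDerivAt (fun x => x * c) (1 * c) x := (hasDerivAt_id x).mul_const c
    have h3 := h1.sub h2
    rw [mul_one, one_mul] at h3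
    exact h3
  have hpos : ∀ x, b ≤ x → x ≤ A → 0 ≤ Real.cos (x - ψ) - c := by
    intro x h1 h2
    rw [hc, ← Real.cos_abs (x - ψ), sub_nonneg]
    apply Real.cos_le_cos_of_nonneg_of_le_pi (abs_nonneg _) (by linarith)
    rw [abs_le]
    constructor <;> rw [hψ] <;> linarith
  have hmono : MonotoneOn (fun x => Real.sin (x - ψ) - x * c) (Icc b A) := by
    apply monotoneOn_of_deriv_nonneg (convex_Icc b A)
    · exact Continuous.continuousOn (by fun_prop)
    · exact fun x _ => (hk x).differentiableAt.differentiableWithinAt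
    · intro x hx
      rw [interior_Icc] at hx
      rw [(hk x).deriv]
      exact hpos x hx.1.le hx.2.le
  have hvis := a.visit hk (by fun_prop) hA hB (by
      have h1 : a.turn = θ₁ := ha.2.2
      rw [h1]
      exact hmono ⟨f2, f1⟩ ⟨f4, f3⟩ hθ) (fun s => hpos _ (hmin s) (hmax s))
  have hcc : Continuous fun s => Real.cos (a.θ s - ψ) := by have := a.cont; fun_prop
  rw [intervalIntegral.integral_sub (hcc.intervalIntegrable _ _) (by simp),
    intervalIntegral.integral_const] at hvis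
  have ht : a.turn = θ₁ := ha.2.2
  rw [P_eq_integral ha]
  simp only [ht, smul_eq_mul, ← hAdef, ← hbdef] at hvis
  have e1 : A - ψ = (A - b) / 2 := by rw [hψ]; ring
  have e2 : b - ψ = -((A - b) / 2) := by rw [hψ]; ring
  rw [e1, e2, Real.sin_neg] at hvis
  have e3 : Real.sin (0 - ψ) = -Real.sin ψ := by rw [zero_sub, Real.sin_neg]
  rw [e3] at hvis
  nlinarith

/-- Length bound for condensed curves. -/
theorem length_le (ha : a ∈ FC.S q θ₁) (hθ : 0 ≤ θ₁) (hA : sA ∈ Icc 0 a.L) (hB : sB ∈ Icc 0 a.L)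
    (hmax : ∀ s, a.θ s ≤ a.θ sA) (hmin : ∀ s, a.θ sB ≤ a.θ s)
    (hω : a.θ sA - a.θ sB < Real.pi) {ε : ℝ} (hε : 0 < ε)
    (hP : ∀ ψ ∈ Icc (θ₁ - Real.pi / 2) (Real.pi / 2), P q θ₁ ψ ≤ 4 - ε) :
    a.L ≤ 2 * Real.pi - θ₁ - ε := by
  have hpi := Real.pi_pos
  obtain ⟨f1, f2, f3, f4⟩ := range_facts ha hmax hmin
  have h := main_ineq ha hθ hA hB hmax hmin hω.le
  have h1 := hP ((a.θ sA + a.θ sB) / 2) (by constructor <;> linarith)
  set t := (Real.pi - (a.θ sA - a.θ sB)) / 2 with ht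
  have e1 : (a.θ sA - a.θ sB) / 2 = Real.pi / 2 - t := by rw [ht]; ring
  have e2 : a.θ sA - a.θ sB = Real.pi - 2 * t := by rw [ht]; ring
  rw [e1, Real.sin_pi_div_two_sub, Real.cos_pi_div_two_sub, e2] at h
  have ht0 : 0 < t := by rw [ht]; linarith
  have ht1 : t ≤ Real.pi / 2 := by rw [ht]; linarith
  have hs0 : 0 < Real.sin t := Real.sin_pos_of_pos_of_lt_pi ht0 (by linarith)
  have hs1 : Real.sin t ≤ 1 := Real.sin_le_one t
  have h2 := one_le_cos_add ht0.le ht1
  have h3 : (a.L - 2 * Real.pi + θ₁) * Real.sin t ≤ -ε := by nlinarith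
  by_contra hcon
  push Not at hcon
  have h4 : -ε < a.L - 2 * Real.pi + θ₁ := by linarith
  nlinarith

theorem P_right_ge (ha : a ∈ FC.S q θ₁) (hθ : 0 ≤ θ₁) (hA : sA ∈ Icc 0 a.L) (hB : sB ∈ Icc 0 a.L)
    (hmax : ∀ s, a.θ s ≤ a.θ sA) (hmin : ∀ s, a.θ sB ≤ a.θ s)
    (hω : a.θ sA - a.θ sB ≤ Real.pi) :
    2 * (1 - Real.cos (a.θ sA - a.θ sB)) ≤ P q θ₁ (a.θ sA - Real.pi / 2) := by
  have hpi := Real.pi_pos
  obtain ⟨f1, f2, f3, f4⟩ := range_facts ha hmax hmin
  have ht : a.turn = θ₁ := ha.2.2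
  set A := a.θ sA with hAdef
  set b := a.θ sB with hbdef
  have hk : ∀ x, HasDerivAt (fun x => Real.cos (A - x)) (Real.sin (A - x)) x := by
    intro x
    have h1 : HasDerivAt (fun x => Real.cos (A - x)) (-Real.sin (A - x) * (-1)) x :=
      ((hasDerivAt_id x).const_sub A).cos
    simpa using h1
  have hvis := a.visit hk (by fun_prop) hA hB (by
      rw [ht]
      apply Real.cos_le_cos_of_nonneg_of_le_pi <;> linarith) (fun s => by
      apply Real.sin_nonneg_of_nonneg_of_le_pi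
      · have := hmax s; linarith
      · have := hmin s; linarith)
  simp only [ht, ← hAdef, ← hbdef, sub_self, Real.cos_zero, sub_zero] at hvis
  rw [P_eq_integral ha]
  have e1 : (fun s => Real.cos (a.θ s - (A - Real.pi / 2))) = fun s => Real.sin (A - a.θ s) := by
    ext s
    rw [show a.θ s - (A - Real.pi / 2) = Real.pi / 2 - (A - a.θ s) by ring,
      Real.cos_pi_div_two_sub]
  rw [e1, Real.sin_sub_pi_div_two, show θ₁ - (A - Real.pi / 2) = Real.pi / 2 - (A - θ₁) by ring,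
    Real.sin_pi_div_two_sub]
  linarith

theorem P_left_ge (ha : a ∈ FC.S q θ₁) (hθ : 0 ≤ θ₁) (hA : sA ∈ Icc 0 a.L) (hB : sB ∈ Icc 0 a.L)
    (hmax : ∀ s, a.θ s ≤ a.θ sA) (hmin : ∀ s, a.θ sB ≤ a.θ s)
    (hω : a.θ sA - a.θ sB ≤ Real.pi) :
    2 * (1 - Real.cos (a.θ sA - a.θ sB)) ≤ P q θ₁ (a.θ sB + Real.pi / 2) := by
  have hpi := Real.pi_pos
  obtain ⟨f1, f2, f3, f4⟩ := range_facts ha hmax hmin
  have ht : a.turn = θ₁ := ha.2.2
  set A := a.θ sA with hAdef
  set b := a.θ sB with hbdef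
  have hk : ∀ x, HasDerivAt (fun x => -Real.cos (x - b)) (Real.sin (x - b)) x := by
    intro x
    have h1 : HasDerivAt (fun x => Real.cos (x - b)) (-Real.sin (x - b) * 1) x :=
      ((hasDerivAt_id x).sub_const b).cos
    have h3 := h1.neg
    rw [mul_one, neg_neg] at h3
    exact h3
  have hvis := a.visit hk (by fun_prop) hA hB (by
      rw [ht]
      have : Real.cos (θ₁ - b) ≤ Real.cos (0 - b) := by
        apply Real.cos_le_cos_of_nonneg_of_le_pi <;> linarith
      linarith) (fun s => by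
      apply Real.sin_nonneg_of_nonneg_of_le_pi
      · have := hmin s; linarith
      · have := hmax s; linarith)
  simp only [ht, ← hAdef, ← hbdef, sub_self, Real.cos_zero, zero_sub, Real.cos_neg] at hvis
  rw [P_eq_integral ha]
  have e1 : (fun s => Real.cos (a.θ s - (b + Real.pi / 2))) = fun s => Real.sin (a.θ s - b) := by
    ext s
    rw [show a.θ s - (b + Real.pi / 2) = (a.θ s - b) - Real.pi / 2 by ring,
      Real.cos_sub_pi_div_two]
  rw [e1, Real.sin_add_pi_div_two, show θ₁ - (b + Real.pi / 2) = (θ₁ - b) - Real.pi / 2 by ring,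
    Real.sin_sub_pi_div_two]
  linarith

theorem endpoint_gt {l m c s : ℝ} (hm : 0 ≤ m * s) (hl : 2 * (1 - c) ≤ l)
    (h : 2 * (1 - c) ≤ -(l * c) - m * s) (hc : -1 < c) (hc1 : c < 1) : 4 < l := by
  by_contra hcon
  push Not at hcon
  have h1 : 0 < l := by linarith
  have h2 : l * c < 0 := by linarith
  have h3 : c < 0 := by
    by_contra h4
    push Not at h4
    have := mul_nonneg h1.le h4
    linarith
  nlinarith

/-- Choice of an axis. -/
theorem exists_axis (ha : a ∈ FC.S q θ₁) (hθ : 0 ≤ θ₁) (hA : sA ∈ Icc 0 a.L)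
    (hB : sB ∈ Icc 0 a.L)
    (hmax : ∀ s, a.θ s ≤ a.θ sA) (hmin : ∀ s, a.θ sB ≤ a.θ s)
    (hω : a.θ sA - a.θ sB < Real.pi) {ψs : ℝ} (hψs : 4 ≤ P q θ₁ ψs) :
    ∃ ψ, a.θ sA - Real.pi / 2 < ψ ∧ ψ < a.θ sB + Real.pi / 2 ∧
      (4 < P q θ₁ ψ ∨ (P q θ₁ ψ = 4 ∧ P' q θ₁ ψ = 0)) := by
  have hpi := Real.pi_pos
  obtain ⟨f1, f2, f3, f4⟩ := range_facts ha hmax hmin
  have hR := P_right_ge ha hθ hA hB hmax hmin hω.le
  have hL := P_left_ge ha hθ hA hB hmax hmin hω.le
  set A := a.θ sA with hAdef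
  set b := a.θ sB with hbdef
  rcases eq_or_lt_of_le (by linarith : (0 : ℝ) ≤ A - b) with h0 | h0
  · -- straight segment
    have hA0 : A = 0 := by linarith
    have hb0 : b = 0 := by linarith
    have hθ0 : ∀ s, a.θ s = 0 := fun s => le_antisymm
      (by have := hmax s; linarith) (by have := hmin s; linarith)
    have hθ1 : θ₁ = 0 := by linarith
    have hq : q = a.L := by
      rw [← ha.2.1]
      unfold FC.disp
      simp [hθ0]
    have hLpos := ha.1
    refine ⟨0, by linarith, by linarith, ?_⟩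
    have hP0 : P q θ₁ 0 = a.L := by
      unfold P
      rw [hθ1, hq]; simp
    have hP'0 : P' q θ₁ 0 = 0 := by
      unfold P'
      rw [hθ1, hq]; simp
    have h2 := P_sq_add q θ₁ 0 ψs
    rw [hP'0, hP0] at h2
    have h3 : (4 : ℝ) ≤ a.L := by nlinarith [sq_nonneg (P' q θ₁ ψs)]
    rw [hP0]
    rcases eq_or_lt_of_le h3 with h4 | h4
    · exact Or.inr ⟨h4.symm, hP'0⟩
    · exact Or.inl h4
  · have hcos1 : Real.cos (A - b) < 1 := by
      have := Real.cos_lt_cos_of_nonneg_of_le_pi (x := 0) (y := A - b) le_rfl hω.le h0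
      simpa using this
    have hcosm1 : -1 < Real.cos (A - b) := by
      have := Real.cos_lt_cos_of_nonneg_of_le_pi (x := A - b) (y := Real.pi) h0.le le_rfl hω
      simpa using this
    have hsin : 0 < Real.sin (A - b) := Real.sin_pos_of_pos_of_lt_pi h0 hω
    have hlt : A - Real.pi / 2 < b + Real.pi / 2 := by linarith
    -- relation between the two endpoints
    have e1 : P q θ₁ (A - Real.pi / 2)
        = -(P q θ₁ (b + Real.pi / 2) * Real.cos (A - b))
          - P' q θ₁ (b + Real.pi / 2) * Real.sin (A - b) := by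
      have := P_add q θ₁ (b + Real.pi / 2) ((A - b) - Real.pi)
      rw [show b + Real.pi / 2 + (A - b - Real.pi) = A - Real.pi / 2 by ring,
        Real.cos_sub_pi, Real.sin_sub_pi] at this
      rw [this]; ring
    have e2 : P q θ₁ (b + Real.pi / 2)
        = -(P q θ₁ (A - Real.pi / 2) * Real.cos (A - b))
          + P' q θ₁ (A - Real.pi / 2) * Real.sin (A - b) := by
      have := P_add q θ₁ (A - Real.pi / 2) (Real.pi - (A - b))
      rw [show A - Real.pi / 2 + (Real.pi - (A - b)) = b + Real.pi / 2 by ring,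
        Real.cos_pi_sub, Real.sin_pi_sub] at this
      rw [this]; ring
    by_cases c1 : 0 ≤ P' q θ₁ (b + Real.pi / 2)
    · have h4 : 4 < P q θ₁ (b + Real.pi / 2) := by
        apply endpoint_gt (mul_nonneg c1 hsin.le) hL _ hcosm1 hcos1
        rw [e1] at hR
        linarith
      have h5 : ∀ᶠ ψ in 𝓝[<] (b + Real.pi / 2), 4 < P q θ₁ ψ :=
        ((P_cont q θ₁).continuousAt.eventually (lt_mem_nhds h4)).filter_mono nhdsWithin_le_nhds
      have h6 : ∀ᶠ ψ in 𝓝[<] (b + Real.pi / 2), ψ ∈ Ioo (A - Real.pi / 2) (b + Real.pi / 2) :=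
        Ioo_mem_nhdsLT hlt
      obtain ⟨ψ, h7, h8⟩ := (h5.and h6).exists
      exact ⟨ψ, h8.1, h8.2, Or.inl h7⟩
    · push Not at c1
      by_cases c2 : P' q θ₁ (A - Real.pi / 2) ≤ 0
      · have h4 : 4 < P q θ₁ (A - Real.pi / 2) := by
          apply endpoint_gt (m := -P' q θ₁ (A - Real.pi / 2)) (s := Real.sin (A - b))
            (mul_nonneg (by linarith) hsin.le) hR _ hcosm1 hcos1
          rw [e2] at hL
          linarith
        have h5 : ∀ᶠ ψ in 𝓝[>] (A - Real.pi / 2), 4 < P q θ₁ ψ :=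
          ((P_cont q θ₁).continuousAt.eventually (lt_mem_nhds h4)).filter_mono
            nhdsWithin_le_nhds
        have h6 : ∀ᶠ ψ in 𝓝[>] (A - Real.pi / 2), ψ ∈ Ioo (A - Real.pi / 2) (b + Real.pi / 2) :=
          Ioo_mem_nhdsGT hlt
        obtain ⟨ψ, h7, h8⟩ := (h5.and h6).exists
        exact ⟨ψ, h8.1, h8.2, Or.inl h7⟩
      · push Not at c2
        obtain ⟨ψ, hψ, hψ0⟩ := intermediate_value_Icc' hlt.le (P'_cont q θ₁).continuousOn
          (show (0 : ℝ) ∈ Icc (P' q θ₁ (b + Real.pi / 2)) (P' q θ₁ (A - Real.pi / 2)) from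
            ⟨c1.le, c2.le⟩)
        have hψl : A - Real.pi / 2 < ψ := by
          rcases eq_or_lt_of_le hψ.1 with h | h
          · rw [← h] at hψ0; linarith
          · exact h
        have hψr : ψ < b + Real.pi / 2 := by
          rcases eq_or_lt_of_le hψ.2 with h | h
          · rw [h] at hψ0; linarith
          · exact h
        have h3 := P'_add q θ₁ ψ (b + Real.pi / 2 - ψ)
        rw [show ψ + (b + Real.pi / 2 - ψ) = b + Real.pi / 2 by ring, hψ0] at h3
        have h4 : 0 < Real.sin (b + Real.pi / 2 - ψ) :=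
          Real.sin_pos_of_pos_of_lt_pi (by linarith) (by linarith)
        have h5 : 0 < P q θ₁ ψ := by
          by_contra hcon
          push Not at hcon
          nlinarith
        have h6 := P_sq_add q θ₁ ψ ψs
        rw [hψ0] at h6
        have h7 : 4 ≤ P q θ₁ ψ := by nlinarith [sq_nonneg (P' q θ₁ ψs)]
        refine ⟨ψ, hψl, hψr, ?_⟩
        rcases eq_or_lt_of_le h7 with h8 | h8
        · exact Or.inr ⟨h8.symm, hψ0⟩
        · exact Or.inl h8

end

end Pool.Agent.H804R3
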