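import Pool.Agent.H804R3.DubinsDefs
import Pool.Agent.H804R3.Free

/-!
From free curves to the Dubins space and back.
-/

noncomputable section

namespace Pool.Agent.H804R3

open Set Filter Topology

theorem norm_exp_sub_exp_le (x y : ℝ) :
    ‖Complex.exp (x * Complex.I) - Complex.exp (y * Complex.I)‖ ≤ |x - y| := by
  have h : Complex.exp (x * Complex.I) - Complex.exp (y * Complex.I)
      = Complex.exp (y * Complex.I) * (Complex.exp (Complex.I * ((x - y : ℝ) : ℂ)) - 1) := by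
    rw [mul_sub, ← Complex.exp_add, mul_one]
    congr 2
    push_cast
    ring
  rw [h, norm_mul, Complex.norm_exp_ofReal_mul_I, one_mul]
  exact Real.norm_exp_I_mul_ofReal_sub_one_le

theorem abs_le_of_norm_exp {ε : ℝ} (hε : 0 < ε) :
    ∃ δ > 0, ∀ x : ℝ, |x| < δ → |x| ≤ (1 + ε) * ‖Complex.exp (x * Complex.I) - 1‖ := by
  have h1 : HasDerivAt (fun x : ℝ => Complex.exp (x * Complex.I)) Complex.I 0 := by
    have h2 : HasDerivAt (fun x : ℝ => (x : ℂ) * Complex.I) (1 * Complex.I) 0 :=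
      (Complex.ofRealCLM.hasDerivAt).mul_const _
    have h3 := h2.cexp
    simpa using h3
  have hc : 0 < ε / (1 + ε) := by positivity
  have h4 := (hasDerivAt_iff_isLittleO.mp h1).def hc
  rw [Metric.eventually_nhds_iff] at h4
  obtain ⟨δ, hδ, h5⟩ := h4
  refine ⟨δ, hδ, fun x hx => ?_⟩
  have h6 := h5 (y := x) (by simpa [Real.dist_eq] using hx)
  simp only [sub_zero, Complex.ofReal_zero, zero_mul, Complex.exp_zero, Complex.real_smul,
    Real.norm_eq_abs] at h6
  have h7 : |x| = ‖(x : ℂ) * Complex.I‖ := by simp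
  have h8 : ‖(x : ℂ) * Complex.I‖ ≤ ‖Complex.exp (x * Complex.I) - 1‖
      + ‖Complex.exp (x * Complex.I) - 1 - x * Complex.I‖ := by
    have := norm_sub_le (Complex.exp (x * Complex.I) - 1)
      (Complex.exp (x * Complex.I) - 1 - x * Complex.I)
    simpa using this
  rw [← h7] at h8
  have h9 : |x| * (1 - ε / (1 + ε)) ≤ ‖Complex.exp (x * Complex.I) - 1‖ := by
    nlinarith
  have h10 : (1 : ℝ) - ε / (1 + ε) = 1 / (1 + ε) := by field_simp; ring
  rw [h10] at h9
  have h11 : |x| = (1 + ε) * (|x| * (1 / (1 + ε))) := by field_simp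
  rw [h11]
  exact mul_le_mul_of_nonneg_left h9 (by positivity)

theorem angle_lip_aux {L : ℝ} {θ : ℝ → ℝ} (hθ : ContinuousOn θ (Icc 0 L))
    (hlip : ∀ s ∈ Icc (0 : ℝ) L, ∀ t ∈ Icc (0 : ℝ) L,
      ‖Complex.exp (θ s * Complex.I) - Complex.exp (θ t * Complex.I)‖ ≤ |s - t|)
    {a b : ℝ} (ha : 0 ≤ a) (hab : a ≤ b) (hb : b ≤ L) : |θ b - θ a| ≤ b - a := by
  have hsub : Icc a b ⊆ Icc 0 L := Icc_subset_Icc ha hb
  have key : ∀ ε > 0, |θ b - θ a| ≤ (1 + ε) * (b - a) := by
    intro ε hε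
    have h := image_norm_le_of_liminf_right_slope_norm_lt_deriv_boundary
      (f := fun x => θ x - θ a) (f' := fun _ => 1 + ε / 2) (a := a) (b := b)
      (B := fun x => (1 + ε) * (x - a)) (B' := fun _ => 1 + ε)
      ((hθ.mono hsub).sub continuousOn_const) ?_ (by simp) (by fun_prop) ?_ ?_
    · have := h (right_mem_Icc.mpr hab)
      simpa [Real.norm_eq_abs] using this
    · intro x hx r hr
      apply Eventually.frequently
      obtain ⟨δ, hδ, h1⟩ := abs_le_of_norm_exp (ε := ε / 2) (by linarith)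
      have hx' : x ∈ Icc 0 L := hsub ⟨hx.1, hx.2.le⟩
      have hcx : ContinuousWithinAt θ (Icc 0 L) x := hθ x hx'
      have h2 : ∀ᶠ z in 𝓝[Icc 0 L] x, |θ z - θ x| < δ := by
        have := Metric.continuousWithinAt_iff'.mp hcx δ hδ
        simpa [Real.dist_eq] using this
      have h3 : ∀ᶠ z in 𝓝[>] x, |θ z - θ x| < δ := by
        have hxL : x < L := lt_of_lt_of_le hx.2 hb
        have : 𝓝[>] x ≤ 𝓝[Icc 0 L] x := by
          rw [← nhdsWithin_Ioc_eq_nhdsGT hxL]
          exact nhdsWithin_mono _ (fun z hz => ⟨hx'.1.trans hz.1.le, hz.2⟩)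
        exact this h2
      have h4 : ∀ᶠ z in 𝓝[>] x, z ∈ Ioc x b := Ioc_mem_nhdsGT hx.2
      filter_upwards [h3, h4] with z hz hzb
      have hz' : z ∈ Icc 0 L := hsub ⟨hx.1.trans hzb.1.le, hzb.2⟩
      have h5 := h1 _ hz
      have h6 : ‖Complex.exp (((θ z - θ x : ℝ) : ℂ) * Complex.I) - 1‖ ≤ z - x := by
        have h7 := hlip z hz' x hx'
        rw [abs_of_pos (sub_pos.mpr hzb.1)] at h7
        have h8 : Complex.exp (θ z * Complex.I) - Complex.exp (θ x * Complex.I)
          = Complex.exp (θ x * Complex.I) *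
            (Complex.exp (((θ z - θ x : ℝ) : ℂ) * Complex.I) - 1) := by
          rw [mul_sub, ← Complex.exp_add, mul_one]
          congr 2
          push_cast
          ring
        rw [h8, norm_mul, Complex.norm_exp_ofReal_mul_I, one_mul] at h7
        exact h7
      have h9 : |θ z - θ x| ≤ (1 + ε / 2) * (z - x) :=
        h5.trans (mul_le_mul_of_nonneg_left h6 (by linarith))
      have hzx : 0 < z - x := sub_pos.mpr hzb.1
      rw [slope_def_field]
      simp only [Function.comp, Real.norm_eq_abs]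
      rw [div_lt_iff₀ hzx]
      have h10 : |θ z - θ a| - |θ x - θ a| ≤ |θ z - θ x| := by
        have := abs_sub_abs_le_abs_sub (θ z - θ a) (θ x - θ a)
        simpa using this
      calc |θ z - θ a| - |θ x - θ a| ≤ (1 + ε / 2) * (z - x) := h10.trans h9
        _ < r * (z - x) := mul_lt_mul_of_pos_right hr hzx
    · intro x _
      have := ((hasDerivAt_id x).sub_const a).const_mul (1 + ε)
      simpa using this.hasDerivWithinAt
    · intro x _ _
      linarith
  by_contra hcon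
  push Not at hcon
  rcases eq_or_lt_of_le hab with h0 | h0
  · subst h0
    simp at hcon
  · have hba : 0 < b - a := sub_pos.mpr h0
    have := key ((|θ b - θ a| - (b - a)) / (2 * (b - a))) (by
      apply div_pos <;> linarith)
    have h2 : (1 + (|θ b - θ a| - (b - a)) / (2 * (b - a))) * (b - a)
        = (b - a) + (|θ b - θ a| - (b - a)) / 2 := by
      field_simp
    rw [h2] at this
    linarith

theorem angle_lip {L : ℝ} {θ : ℝ → ℝ} (hθ : ContinuousOn θ (Icc 0 L))
    (hlip : ∀ s ∈ Icc (0 : ℝ) L, ∀ t ∈ Icc (0 : ℝ) L,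
      ‖Complex.exp (θ s * Complex.I) - Complex.exp (θ t * Complex.I)‖ ≤ |s - t|)
    {s t : ℝ} (hs : s ∈ Icc 0 L) (ht : t ∈ Icc 0 L) : |θ s - θ t| ≤ |s - t| := by
  rcases le_total s t with h | h
  · rw [abs_sub_comm, abs_sub_comm s t, abs_of_nonneg (by linarith : 0 ≤ t - s)]
    exact angle_lip_aux hθ hlip hs.1 h ht.2
  · rw [abs_of_nonneg (by linarith : 0 ≤ s - t)]
    exact angle_lip_aux hθ hlip ht.1 h hs.2

namespace FC

/-- the normalised `C¹` curve on `[0,1]` -/
def toCurve (a : FC) : C(unitInterval, ℂ) × C(unitInterval, ℂ) :=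
  (⟨fun t => ∫ s in (0 : ℝ)..(a.L * t), Complex.exp (a.θ s * Complex.I), by
      refine intervalIntegral.continuous_parametric_intervalIntegral_of_continuous
        (f := fun (_ : unitInterval) s => Complex.exp (a.θ s * Complex.I)) ?_ (by fun_prop)
      have h := a.cont
      show Continuous fun p : unitInterval × ℝ => Complex.exp (a.θ p.2 * Complex.I)
      fun_prop⟩,
   ⟨fun t => a.L * Complex.exp (a.θ (a.L * t) * Complex.I), by
      have h := a.cont
      fun_prop⟩)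

/-- the free curves joining `(0,1)` to `(q, exp (i θ₁))` with total turning `θ₁` -/
def S (q : ℂ) (θ₁ : ℝ) : Set FC := {a | 0 < a.L ∧ a.disp = q ∧ a.turn = θ₁}

theorem joins_of_mem {q : ℂ} {θ₁ : ℝ} {a : FC} (h : a ∈ S q θ₁) :
    Joins q θ₁ a.L (fun s => ∫ r in (0 : ℝ)..s, Complex.exp (a.θ r * Complex.I)) a.θ where
  pos := h.1
  continuousOn_angle := a.cont.continuousOn
  angle_zero := a.θ_zero
  hasDeriv := fun s _ =>
    (intervalIntegral.integral_hasDerivAt_right (a.cont_exp.intervalIntegrable _ _)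
      (a.cont_exp.stronglyMeasurableAtFilter _ _) a.cont_exp.continuousAt).hasDerivWithinAt
  lipschitz := fun s _ t _ => (norm_exp_sub_exp_le _ _).trans (a.lip s t)
  start := by simp
  finish := h.2.1
  turning := h.2.2

theorem toCurve_mem {q : ℂ} {θ₁ : ℝ} {a : FC} (h : a ∈ S q θ₁) :
    a.toCurve ∈ DubinsSpace q θ₁ :=
  ⟨a.L, _, a.θ, joins_of_mem h, fun _ => rfl, fun _ => rfl⟩

theorem exists_of_joins {q : ℂ} {θ₁ L : ℝ} {γ : ℝ → ℂ} {θ : ℝ → ℝ} (h : Joins q θ₁ L γ θ) :
    ∃ a ∈ S q θ₁, a.L = L ∧ (∀ s ∈ Icc (0 : ℝ) L, a.θ s = θ s) ∧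
      ∀ s ∈ Icc (0 : ℝ) L, γ s = ∫ r in (0 : ℝ)..s, Complex.exp (a.θ r * Complex.I) := by
  have hL := h.pos
  have hcl : ∀ s : ℝ, max 0 (min s L) ∈ Icc (0 : ℝ) L := fun s =>
    ⟨le_max_left _ _, max_le hL.le (min_le_right _ _)⟩
  have hcl2 : ∀ s ∈ Icc (0 : ℝ) L, max 0 (min s L) = s := fun s hs => by
    rw [min_eq_left hs.2, max_eq_right hs.1]
  let a : FC :=
    { L := L
      θ := fun s => θ (max 0 (min s L))
      L_nonneg := hL.le
      lip := fun s t => by
        refine (angle_lip h.continuousOn_angle h.lipschitz (hcl s) (hcl t)).trans ?_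
        rw [max_comm 0, max_comm 0]
        refine (abs_max_sub_max_le_abs _ _ _).trans ?_
        exact abs_inf_sub_inf_le_abs _ _ _
      left := fun s hs => by
        rw [max_eq_left ((min_le_left _ _).trans hs)]
        exact h.angle_zero
      right := fun s hs => by
        rw [min_eq_right hs, min_self] }
  have hθ : ∀ s ∈ Icc (0 : ℝ) L, a.θ s = θ s := fun s hs => by
    show θ (max 0 (min s L)) = θ s
    rw [hcl2 s hs]
  have hγ : ∀ s ∈ Icc (0 : ℝ) L,
      γ s = ∫ r in (0 : ℝ)..s, Complex.exp (a.θ r * Complex.I) := by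
    intro s hs
    have h1 := intervalIntegral.integral_eq_sub_of_hasDeriv_right_of_le (f := γ)
      (f' := fun r => Complex.exp (a.θ r * Complex.I)) hs.1 ?_ ?_
      (a.cont_exp.intervalIntegrable _ _)
    · rw [h1, h.start, sub_zero]
    · intro r hr
      exact ((h.hasDeriv r ⟨hr.1, hr.2.trans hs.2⟩).continuousWithinAt).mono
        (Icc_subset_Icc le_rfl hs.2)
    · intro r hr
      have hr' : r ∈ Ioo (0 : ℝ) L := ⟨hr.1, hr.2.trans_le hs.2⟩
      have h2 := h.hasDeriv r (Ioo_subset_Icc_self hr')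
      rw [hθ r (Ioo_subset_Icc_self hr')]
      exact (h2.hasDerivAt (Icc_mem_nhds hr'.1 hr'.2)).hasDerivWithinAt
  refine ⟨a, ⟨hL, ?_, ?_⟩, rfl, hθ, hγ⟩
  · exact (hγ L (right_mem_Icc.mpr hL.le)).symm.trans h.finish
  · exact (hθ L (right_mem_Icc.mpr hL.le)).trans h.turning

theorem exists_of_mem {q : ℂ} {θ₁ : ℝ} {p : C(unitInterval, ℂ) × C(unitInterval, ℂ)}
    (hp : p ∈ DubinsSpace q θ₁) : ∃ a ∈ S q θ₁, a.toCurve = p := by
  obtain ⟨L, γ, θ, h, h1, h2⟩ := hp
  obtain ⟨a, ha, haL, haθ, haγ⟩ := exists_of_joins h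
  refine ⟨a, ha, ?_⟩
  have hmem : ∀ t : unitInterval, L * (t : ℝ) ∈ Icc (0 : ℝ) L := fun t =>
    ⟨mul_nonneg h.pos.le t.2.1, mul_le_of_le_one_right h.pos.le t.2.2⟩
  apply Prod.ext
  · ext t
    rw [h1 t, haγ _ (hmem t)]
    show ∫ s in (0 : ℝ)..(a.L * t), Complex.exp (a.θ s * Complex.I) = _
    rw [haL]
  · ext t
    rw [h2 t, ← haθ _ (hmem t)]
    show a.L * Complex.exp (a.θ (a.L * t) * Complex.I) = _
    rw [haL]

theorem exists_extrema (a : FC) : ∃ sA ∈ Icc (0 : ℝ) a.L, ∃ sB ∈ Icc (0 : ℝ) a.L,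
    (∀ s, a.θ s ≤ a.θ sA) ∧ (∀ s, a.θ sB ≤ a.θ s) ∧
      amplitude a.L a.θ = a.θ sA - a.θ sB := by
  have hne : (Icc (0 : ℝ) a.L).Nonempty := ⟨0, le_rfl, a.L_nonneg⟩
  obtain ⟨sA, hsA, hA⟩ := isCompact_Icc.exists_isMaxOn hne a.cont.continuousOn
  obtain ⟨sB, hsB, hB⟩ := isCompact_Icc.exists_isMinOn hne a.cont.continuousOn
  have h0 : (0 : ℝ) ∈ Icc (0 : ℝ) a.L := ⟨le_rfl, a.L_nonneg⟩
  have hL : a.L ∈ Icc (0 : ℝ) a.L := ⟨a.L_nonneg, le_rfl⟩
  have red : ∀ s, ∃ t ∈ Icc (0 : ℝ) a.L, a.θ s = a.θ t := by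
    intro s
    rcases le_total s 0 with h | h
    · exact ⟨0, h0, by rw [a.left s h, a.θ_zero]⟩
    · rcases le_total s a.L with h' | h'
      · exact ⟨s, ⟨h, h'⟩, rfl⟩
      · exact ⟨a.L, hL, a.right s h'⟩
  refine ⟨sA, hsA, sB, hsB, ?_, ?_, ?_⟩
  · intro s
    obtain ⟨t, ht, e⟩ := red s
    rw [e]
    exact hA ht
  · intro s
    obtain ⟨t, ht, e⟩ := red s
    rw [e]
    exact hB ht
  · unfold amplitude
    congr 1
    · exact (IsGreatest.csSup_eq ⟨mem_image_of_mem _ hsA, by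
        rintro _ ⟨t, ht, rfl⟩
        exact hA ht⟩)
    · exact (IsLeast.csInf_eq ⟨mem_image_of_mem _ hsB, by
        rintro _ ⟨t, ht, rfl⟩
        exact hB ht⟩)

end FC

theorem CF.toCurve {T : Type*} [TopologicalSpace T] {γ : T → FC} (hγ : CF γ) :
    Continuous (fun t => (γ t).toCurve) := by
  have hL := hγ.1
  have hθ := hγ.2
  refine Continuous.prodMk ?_ ?_
  · refine ContinuousMap.continuous_of_continuous_uncurry _ ?_
    show Continuous fun p : T × unitInterval =>
      ∫ s in (0 : ℝ)..((γ p.1).L * p.2), Complex.exp ((γ p.1).θ s * Complex.I)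
    refine intervalIntegral.continuous_parametric_intervalIntegral_of_continuous
      (f := fun (p : T × unitInterval) s => Complex.exp ((γ p.1).θ s * Complex.I)) ?_ ?_
    · show Continuous fun p : (T × unitInterval) × ℝ =>
        Complex.exp ((γ p.1.1).θ p.2 * Complex.I)
      have : Continuous fun p : (T × unitInterval) × ℝ => (γ p.1.1).θ p.2 :=
        hθ.comp ((continuous_fst.comp continuous_fst).prodMk continuous_snd)
      fun_prop
    · exact (hL.comp continuous_fst).mul (continuous_subtype_val.comp continuous_snd)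
  · refine ContinuousMap.continuous_of_continuous_uncurry _ ?_
    show Continuous fun p : T × unitInterval =>
      ((γ p.1).L : ℂ) * Complex.exp ((γ p.1).θ ((γ p.1).L * p.2) * Complex.I)
    have h1 : Continuous fun p : T × unitInterval => (γ p.1).L := hL.comp continuous_fst
    have h2 : Continuous fun p : T × unitInterval => (γ p.1).θ ((γ p.1).L * p.2) :=
      hθ.comp (continuous_fst.prodMk
        (h1.mul (continuous_subtype_val.comp continuous_snd)))
    fun_prop

/-- two free curves are connected inside the Dubins space -/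
def Conn (q : ℂ) (θ₁ : ℝ) (a b : FC) : Prop := JoinedIn (DubinsSpace q θ₁) a.toCurve b.toCurve

theorem Conn.symm {q : ℂ} {θ₁ : ℝ} {a b : FC} (h : Conn q θ₁ a b) : Conn q θ₁ b a :=
  JoinedIn.symm h

theorem Conn.trans {q : ℂ} {θ₁ : ℝ} {a b c : FC} (h : Conn q θ₁ a b) (h' : Conn q θ₁ b c) :
    Conn q θ₁ a c := JoinedIn.trans h h'

theorem Conn.of_family {q : ℂ} {θ₁ : ℝ} {γ : ℝ → FC} (hγ : CF γ)
    (h : ∀ u ∈ Icc (0 : ℝ) 1, γ u ∈ FC.S q θ₁) : Conn q θ₁ (γ 0) (γ 1) := by
  refine JoinedIn.ofLine (f := fun u => (γ u).toCurve) hγ.toCurve.continuousOn rfl rfl ?_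
  rintro _ ⟨u, hu, rfl⟩
  exact FC.toCurve_mem (h u hu)

/-- version for families continuous only on `[0,1]` -/
theorem Conn.of_family' {q : ℂ} {θ₁ : ℝ} {γ : unitInterval → FC} (hγ : CF γ)
    (h : ∀ u, γ u ∈ FC.S q θ₁) : Conn q θ₁ (γ 0) (γ 1) := by
  have h1 : CF (fun u : ℝ => γ (Set.projIcc 0 1 zero_le_one u)) := by
    refine ⟨hγ.1.comp continuous_projIcc, ?_⟩
    have h2 : Continuous fun p : ℝ × ℝ =>
        ((Set.projIcc 0 1 zero_le_one p.1 : unitInterval), p.2) :=
      (continuous_projIcc.comp continuous_fst).prodMk continuous_snd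
    exact hγ.2.comp h2
  have h2 := Conn.of_family h1 (fun u _ => h _)
  simpa using h2

end Pool.Agent.H804R3
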